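import Pool.Agent.H119.OneBend.Core

/-!
# The two counting bounds for a core
-/

namespace Pool.Agent.H119.OneBend

open Finset

variable {n : ℕ}

theorem Core.sum_route_anti (K : Core n) (Q : Finset (Fin n × Fin n))
    (h1 : ∀ p ∈ Q, p.1 ≠ p.2) (h2 : ∀ p ∈ Q, ∀ q ∈ Q, p.1 = q.2 → p.2 = q.1 → False) :
    ∑ p ∈ Q, (K.G p.1 p.2).card ≤ K.U.card := by
  classical
  rw [← Finset.card_biUnion]
  · refine Finset.card_le_card ?_
    intro x hx
    obtain ⟨p, _, hp⟩ := Finset.mem_biUnion.1 hx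
    exact K.G_U _ _ hp
  · intro p hp q hq hpq
    rw [Function.onFun, Finset.disjoint_left]
    intro x hx hx'
    rcases K.disj _ _ _ _ x (h1 p hp) (h1 q hq) hx hx' with ⟨u, v⟩ | ⟨u, v⟩
    · exact hpq (Prod.ext u v)
    · exact h2 p hp q hq u v

theorem Core.sum_route (K : Core n) :
    ∑ p ∈ (Finset.univ : Finset (Fin n)).offDiag, (K.G p.1 p.2).card ≤ 2 * K.U.card := by
  classical
  have h := Finset.sum_filter_add_sum_filter_not (Finset.univ : Finset (Fin n)).offDiag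
    (fun p => p.1 < p.2) (fun p : Fin n × Fin n => (K.G p.1 p.2).card)
  rw [← h]
  have h1 := K.sum_route_anti
    ((Finset.univ : Finset (Fin n)).offDiag.filter (fun p => p.1 < p.2))
    (fun p hp => (Finset.mem_offDiag.1 (Finset.mem_filter.1 hp).1).2.2) (by
      intro p hp q hq e1 e2
      have a1 := (Finset.mem_filter.1 hp).2
      have a2 := (Finset.mem_filter.1 hq).2
      rw [e1, e2] at a1
      exact lt_asymm a1 a2)
  have h2 := K.sum_route_anti
    ((Finset.univ : Finset (Fin n)).offDiag.filter (fun p => ¬ p.1 < p.2))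
    (fun p hp => (Finset.mem_offDiag.1 (Finset.mem_filter.1 hp).1).2.2) (by
      intro p hp q hq e1 e2
      have a0 := (Finset.mem_offDiag.1 (Finset.mem_filter.1 hp).1).2.2
      have a1 := (Finset.mem_filter.1 hp).2
      have a2 := (Finset.mem_filter.1 hq).2
      rw [e1, e2] at a1
      rw [e1, e2] at a0
      exact a0 (le_antisymm (not_lt.1 a2) (not_lt.1 a1)))
  omega

/-- The number of grid points of a box. -/
theorem Core.card_box (K : Core n) (i : Fin n) {dx dy dz : Fin 3} (n1 : dx ≠ dy) (n2 : dx ≠ dz)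
    (n3 : dy ≠ dz) : ((Finset.Icc (K.lo i) (K.hi i)).card : ℤ) =
      (K.hi i dx - K.lo i dx + 1) * (K.hi i dy - K.lo i dy + 1) * (K.hi i dz - K.lo i dz + 1) := by
  have hu : (Finset.univ : Finset (Fin 3)) = {dx, dy, dz} := by
    revert dx dy dz; decide
  rw [Pi.card_Icc, hu, Finset.prod_insert (by simp [n1, n2]), Finset.prod_insert (by simp [n3]),
    Finset.prod_singleton]
  push_cast
  rw [Int.card_Icc, Int.card_Icc, Int.card_Icc, Int.toNat_of_nonneg, Int.toNat_of_nonneg,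
    Int.toNat_of_nonneg]
  · ring
  · have := K.box_le i dz; omega
  · have := K.box_le i dy; omega
  · have := K.box_le i dx; omega

theorem Core.sum_box (K : Core n) (S : Finset (Fin n)) :
    ∑ j ∈ S, (Finset.Icc (K.lo j) (K.hi j)).card ≤ K.U.card := by
  classical
  rw [← Finset.card_biUnion]
  · refine Finset.card_le_card ?_
    intro x hx
    obtain ⟨j, _, hj⟩ := Finset.mem_biUnion.1 hx
    rw [Finset.mem_Icc] at hj
    exact K.box_U j x (fun d => ⟨hj.1 d, hj.2 d⟩)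
  · intro p hp q hq hpq
    rw [Function.onFun, Finset.disjoint_left]
    intro x hx hx'
    rw [Finset.mem_Icc] at hx hx'
    exact hpq (K.box_disj p q x (fun d => ⟨hx.1 d, hx.2 d⟩) (fun d => ⟨hx'.1 d, hx'.2 d⟩))

/-- In-plane box data in a frame. -/
theorem mem_frame {dx dy dz : Fin 3} (n1 : dx ≠ dy) (n2 : dx ≠ dz) (n3 : dy ≠ dz)
    {lo hi : Fin 3 → ℤ} {x y z : ℤ}
    (h : lo dx ≤ x ∧ x ≤ hi dx ∧ lo dy ≤ y ∧ y ≤ hi dy ∧ lo dz ≤ z ∧ z ≤ hi dz) :
    ∀ d, lo d ≤ mk3 dx dy x y z d ∧ mk3 dx dy x y z d ≤ hi d := by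
  refine fin3_forall n1 n2 n3 ?_ ?_ ?_
  · rw [mk3_x]; exact ⟨h.1, h.2.1⟩
  · rw [mk3_y n1]; exact ⟨h.2.2.1, h.2.2.2.1⟩
  · rw [mk3_z n2 n3]; exact ⟨h.2.2.2.2.1, h.2.2.2.2.2⟩

theorem leg_card {G : Finset (Fin 3 → ℤ)} {dx dy : Fin 3} {a b ri h : ℤ}
    (H : ∀ x, (a ≤ x ∧ x ≤ b ∨ b ≤ x ∧ x ≤ a) → mk3 dx dy x ri h ∈ G) :
    a + 1 ≤ b + G.card ∧ b + 1 ≤ a + G.card := by
  classical
  have h1 : ((Finset.Icc a b).image (fun x => mk3 dx dy x ri h)) ⊆ G := by
    intro p hp
    obtain ⟨x, hx, rfl⟩ := Finset.mem_image.1 hp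
    rw [Finset.mem_Icc] at hx
    exact H x (Or.inl hx)
  have h2 : ((Finset.Icc b a).image (fun x => mk3 dx dy x ri h)) ⊆ G := by
    intro p hp
    obtain ⟨x, hx, rfl⟩ := Finset.mem_image.1 hp
    rw [Finset.mem_Icc] at hx
    exact H x (Or.inr hx)
  have inj : Function.Injective (fun x : ℤ => mk3 dx dy x ri h) := by
    intro x y hxy
    have := congrFun hxy dx
    simpa [mk3_x] using this
  have c1 := Finset.card_le_card h1
  have c2 := Finset.card_le_card h2
  rw [Finset.card_image_of_injective _ inj, Int.card_Icc] at c1 c2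
  omega

theorem leg_card' {G : Finset (Fin 3 → ℤ)} {dx dy : Fin 3} (n1 : dx ≠ dy) {a b xx h : ℤ}
    (H : ∀ y, (a ≤ y ∧ y ≤ b ∨ b ≤ y ∧ y ≤ a) → mk3 dx dy xx y h ∈ G) :
    a + 1 ≤ b + G.card ∧ b + 1 ≤ a + G.card := by
  classical
  have h1 : ((Finset.Icc a b).image (fun y => mk3 dx dy xx y h)) ⊆ G := by
    intro p hp
    obtain ⟨x, hx, rfl⟩ := Finset.mem_image.1 hp
    rw [Finset.mem_Icc] at hx
    exact H x (Or.inl hx)
  have h2 : ((Finset.Icc b a).image (fun y => mk3 dx dy xx y h)) ⊆ G := by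
    intro p hp
    obtain ⟨x, hx, rfl⟩ := Finset.mem_image.1 hp
    rw [Finset.mem_Icc] at hx
    exact H x (Or.inr hx)
  have inj : Function.Injective (fun y : ℤ => mk3 dx dy xx y h) := by
    intro x y hxy
    have := congrFun hxy dy
    simpa [mk3_y n1] using this
  have c1 := Finset.card_le_card h1
  have c2 := Finset.card_le_card h2
  rw [Finset.card_image_of_injective _ inj, Int.card_Icc] at c1 c2
  omega

open Classical in
/-- Short flat pairs within a clique. -/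
theorem Core.clique_bound (K : Core n) {dx dy dz : Fin 3} (n1 : dx ≠ dy) (n2 : dx ≠ dz)
    (n3 : dy ≠ dz) (S : Finset (Fin n)) (w : ℕ)
    (hw : ∀ i ∈ S, K.hi i dx ≤ K.lo i dx + w ∧ K.hi i dy ≤ K.lo i dy + w)
    (c : ℤ) (hc : ∀ i ∈ S, K.lo i dz ≤ c ∧ c ≤ K.hi i dz) :
    (S.offDiag.filter (fun p => K.Flat dz p.1 p.2 ∧ (K.G p.1 p.2).card ≤ w)).card ≤
      24 * (S.card * (3 * w + 1)) := by
  set Q := S.offDiag.filter (fun p => K.Flat dz p.1 p.2 ∧ (K.G p.1 p.2).card ≤ w) with hQ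
  have hex : ∀ p : Fin n × Fin n, p ∈ Q → ∃ h xb ei ri ek rk,
      Link (K.lo p.1) (K.hi p.1) (K.lo p.2) (K.hi p.2) (K.G p.1 p.2) dx dy dz h xb ei ri ek rk := by
    intro p hp
    exact (Finset.mem_filter.1 hp).2.1 dx dy n1 n2 n3
  choose! H XB EI RI EK RK hL using hex
  have hmem : ∀ p ∈ Q, p.1 ∈ S ∧ p.2 ∈ S ∧ p.1 ≠ p.2 := by
    intro p hp
    exact Finset.mem_offDiag.1 (Finset.mem_filter.1 hp).1
  have hshort : ∀ p ∈ Q, (K.G p.1 p.2).card ≤ w := fun p hp => (Finset.mem_filter.1 hp).2.2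
  have hdisj : ∀ i ∈ S, ∀ j ∈ S, ∀ x y z : ℤ,
      K.lo i dx ≤ x ∧ x ≤ K.hi i dx ∧ K.lo i dy ≤ y ∧ y ≤ K.hi i dy ∧ K.lo i dz ≤ z ∧
        z ≤ K.hi i dz →
      K.lo j dx ≤ x ∧ x ≤ K.hi j dx ∧ K.lo j dy ≤ y ∧ y ≤ K.hi j dy ∧ K.lo j dz ≤ z ∧
        z ≤ K.hi j dz → i = j := by
    intro i _ j _ x y z h1 h2
    exact K.box_disj i j (mk3 dx dy x y z) (mem_frame n1 n2 n3 h1) (mem_frame n1 n2 n3 h2)
  set Q1 := Q.filter (fun p => EK p = XB p) with hQ1
  set Q2 := (Q.filter (fun p => EI p = XB p)).image Prod.swap with hQ2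
  have b1 : Q1.card ≤ 12 * (S.card * (3 * w + 1)) := by
    have q1 : ∀ p ∈ Q1, p ∈ Q ∧ EK p = XB p := fun p hp => Finset.mem_filter.1 hp
    refine clique_count S w (fun i => K.lo i dx) (fun i => K.hi i dx) (fun i => K.lo i dy)
      (fun i => K.hi i dy) (fun i => K.lo i dz) (fun i => K.hi i dz)
      (fun i hi => ⟨K.box_le i dx, (hw i hi).1⟩) (fun i hi => ⟨K.box_le i dy, (hw i hi).2⟩)
      c hc hdisj Q1 (fun p hp => hmem p (q1 p hp).1) H EI RI EK RK ?_ ?_ ?_ ?_ ?_ ?_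
    · intro p hp
      have L := hL p (q1 p hp).1
      exact ⟨L.h1.1, L.h1.2, L.h2.1, L.h2.2⟩
    · intro p hp
      have L := hL p (q1 p hp).1
      exact ⟨L.e1.1, L.e1.2, L.r1.1, L.r1.2⟩
    · intro p hp
      have L := hL p (q1 p hp).1
      exact ⟨L.e2.1, L.e2.2, L.r2.1, L.r2.2⟩
    · intro p hp x hx j hj hb
      have L := hL p (q1 p hp).1
      have := L.hor1 x (by rw [← (q1 p hp).2]; exact hx)
      exact K.avoid p.1 p.2 j _ (hmem p (q1 p hp).1).2.2 this (mem_frame n1 n2 n3 hb)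
    · intro p hp y hy j hj hb
      have L := hL p (q1 p hp).1
      have := L.ver y hy
      rw [← (q1 p hp).2] at this
      exact K.avoid p.1 p.2 j _ (hmem p (q1 p hp).1).2.2 this (mem_frame n1 n2 n3 hb)
    · intro p hp
      have L := hL p (q1 p hp).1
      have s1 := leg_card L.hor1
      have s2 := leg_card' n1 L.ver
      have s3 := hshort p (q1 p hp).1
      have s4 := (q1 p hp).2
      rw [← s4] at s1
      refine ⟨by omega, by omega, by omega, by omega⟩
  have b2 : Q2.card ≤ 12 * (S.card * (3 * w + 1)) := by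
    have q2 : ∀ p ∈ Q2, p.swap ∈ Q ∧ EI p.swap = XB p.swap := by
      intro p hp
      obtain ⟨q, hq, rfl⟩ := Finset.mem_image.1 hp
      have := Finset.mem_filter.1 hq
      simpa using this
    refine clique_count S w (fun i => K.lo i dx) (fun i => K.hi i dx) (fun i => K.lo i dy)
      (fun i => K.hi i dy) (fun i => K.lo i dz) (fun i => K.hi i dz)
      (fun i hi => ⟨K.box_le i dx, (hw i hi).1⟩) (fun i hi => ⟨K.box_le i dy, (hw i hi).2⟩)
      c hc hdisj Q2 ?_ (fun p => H p.swap) (fun p => EK p.swap) (fun p => RK p.swap)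
      (fun p => EI p.swap) (fun p => RI p.swap) ?_ ?_ ?_ ?_ ?_ ?_
    · intro p hp
      have := hmem p.swap (q2 p hp).1
      simp only [Prod.fst_swap, Prod.snd_swap] at this
      exact ⟨this.2.1, this.1, this.2.2.symm⟩
    · intro p hp
      have L := hL p.swap (q2 p hp).1
      exact ⟨L.h2.1, L.h2.2, L.h1.1, L.h1.2⟩
    · intro p hp
      have L := hL p.swap (q2 p hp).1
      exact ⟨L.e2.1, L.e2.2, L.r2.1, L.r2.2⟩
    · intro p hp
      have L := hL p.swap (q2 p hp).1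
      exact ⟨L.e1.1, L.e1.2, L.r1.1, L.r1.2⟩
    · intro p hp x hx j hj hb
      have L := hL p.swap (q2 p hp).1
      have := L.hor2 x (by rw [← (q2 p hp).2]; exact hx)
      have := K.avoid p.2 p.1 j _ (hmem p.swap (q2 p hp).1).2.2 this (mem_frame n1 n2 n3 hb)
      exact this.symm
    · intro p hp y hy j hj hb
      have L := hL p.swap (q2 p hp).1
      have := L.ver y hy.symm
      rw [← (q2 p hp).2] at this
      have := K.avoid p.2 p.1 j _ (hmem p.swap (q2 p hp).1).2.2 this (mem_frame n1 n2 n3 hb)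
      exact this.symm
    · intro p hp
      have L := hL p.swap (q2 p hp).1
      have s1 := leg_card L.hor2
      have s2 := leg_card' n1 L.ver
      have s3 := hshort p.swap (q2 p hp).1
      have s4 := (q2 p hp).2
      rw [← s4] at s1
      refine ⟨by omega, by omega, by omega, by omega⟩
  have hsub : Q ⊆ Q1 ∪ (Q.filter (fun p => EI p = XB p)) := by
    intro p hp
    rcases (hL p hp).deg with h | h
    · exact Finset.mem_union_right _ (Finset.mem_filter.2 ⟨hp, h⟩)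
    · exact Finset.mem_union_left _ (Finset.mem_filter.2 ⟨hp, h⟩)
  have c1 := Finset.card_le_card hsub
  have c2 := Finset.card_union_le Q1 (Q.filter (fun p => EI p = XB p))
  have c3 : Q2.card = (Q.filter (fun p => EI p = XB p)).card :=
    Finset.card_image_of_injective _ Prod.swap_injective
  omega

open Classical in
/-- Flat pairs when all boxes are long in an in-plane direction. -/
theorem Core.long_bound (K : Core n) {dx dy dz : Fin 3} (n1 : dx ≠ dy) (n2 : dx ≠ dz)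
    (n3 : dy ≠ dz) (S : Finset (Fin n)) (g : ℕ) (hg : 0 < g)
    (hw : ∀ i ∈ S, K.lo i dx + g ≤ K.hi i dx) :
    g * (S.offDiag.filter (fun p => K.Flat dz p.1 p.2)).card ≤ 38 * K.U.card := by
  set Q := S.offDiag.filter (fun p => K.Flat dz p.1 p.2) with hQ
  have hex : ∀ p : Fin n × Fin n, p ∈ Q → ∃ h xb ei ri ek rk,
      Link (K.lo p.1) (K.hi p.1) (K.lo p.2) (K.hi p.2) (K.G p.1 p.2) dx dy dz h xb ei ri ek rk := by
    intro p hp
    exact (Finset.mem_filter.1 hp).2 dx dy n1 n2 n3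
  choose! H XB EI RI EK RK hL using hex
  have hmem : ∀ p ∈ Q, p.1 ∈ S ∧ p.2 ∈ S ∧ p.1 ≠ p.2 := by
    intro p hp
    exact Finset.mem_offDiag.1 (Finset.mem_filter.1 hp).1
  have hswap : ∀ p ∈ Q, p.swap ∈ Q := by
    intro p hp
    obtain ⟨h1, h2⟩ := Finset.mem_filter.1 hp
    obtain ⟨h3, h4, h5⟩ := Finset.mem_offDiag.1 h1
    exact Finset.mem_filter.2 ⟨Finset.mem_offDiag.2 ⟨h4, h3, h5.symm⟩, h2.symm⟩
  let h : Fin n → Fin n → ℤ := fun i k => if i < k then H (i, k) else H (k, i)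
  let xb : Fin n → Fin n → ℤ := fun i k => if i < k then XB (i, k) else XB (k, i)
  let e : Fin n → Fin n → ℤ := fun i k => if i < k then EI (i, k) else EK (k, i)
  let r : Fin n → Fin n → ℤ := fun i k => if i < k then RI (i, k) else RK (k, i)
  have hhs : ∀ i k, h i k = h k i := by
    intro i k
    simp only [h]
    rcases lt_trichotomy i k with q | q | q
    · rw [if_pos q, if_neg (lt_asymm q)]
    · rw [q]
    · rw [if_pos q, if_neg (lt_asymm q)]
  have hxs : ∀ i k, xb i k = xb k i := by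
    intro i k
    simp only [xb]
    rcases lt_trichotomy i k with q | q | q
    · rw [if_pos q, if_neg (lt_asymm q)]
    · rw [q]
    · rw [if_pos q, if_neg (lt_asymm q)]
  have hLk : ∀ p ∈ Q, Link (K.lo p.1) (K.hi p.1) (K.lo p.2) (K.hi p.2) (K.G p.1 p.2) dx dy dz
      (h p.1 p.2) (xb p.1 p.2) (e p.1 p.2) (r p.1 p.2) (e p.2 p.1) (r p.2 p.1) := by
    intro p hp
    rcases lt_trichotomy p.1 p.2 with q | q | q
    · have := hL p hp
      simp only [h, xb, e, r]
      rw [if_pos q, if_pos q, if_pos q, if_pos q, if_neg (lt_asymm q), if_neg (lt_asymm q)]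
      exact this
    · exact absurd q (hmem p hp).2.2
    · have := (hL p.swap (hswap p hp)).swap
      simp only [h, xb, e, r]
      rw [if_pos q, if_pos q, if_neg (lt_asymm q), if_neg (lt_asymm q), if_neg (lt_asymm q),
        if_neg (lt_asymm q)]
      rw [K.G_symm p.1 p.2]
      exact this
  have gmem : ∀ (i k : Fin n) (x y z : ℤ), mk3 dx dy x y z ∈ K.G i k ↔
      (x, y, z) ∈ (K.G i k).image (fun p => (p dx, p dy, p dz)) := by
    intro i k x y z
    constructor
    · intro hm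
      refine Finset.mem_image.2 ⟨_, hm, ?_⟩
      rw [mk3_x, mk3_y n1, mk3_z n2 n3]
    · intro hm
      obtain ⟨p, hp, he⟩ := Finset.mem_image.1 hm
      simp only [Prod.mk.injEq] at he
      rw [← he.1, ← he.2.1, ← he.2.2, ← eq_mk3 n1 n2 n3 p]
      exact hp
  refine long_count S g K.U.card hg (fun i => K.lo i dx) (fun i => K.hi i dx)
    (fun i => K.lo i dy) (fun i => K.hi i dy) (fun i => K.lo i dz) (fun i => K.hi i dz)
    hw (fun i _ => K.box_le i dy) (fun i _ => K.box_le i dz) ?_ Q hmem hswap h xb hhs hxs e r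
    (fun i k => (K.G i k).image (fun p => (p dx, p dy, p dz)))
    (fun i k => by rw [K.G_symm i k]) ?_ ?_ ?_ ?_ ?_ ?_ ?_
  · intro i _ j _ x y z h1 h2
    exact K.box_disj i j (mk3 dx dy x y z) (mem_frame n1 n2 n3 h1) (mem_frame n1 n2 n3 h2)
  · intro p hp
    have L := hLk p hp
    exact ⟨L.e1.1, L.e1.2, L.r1.1, L.r1.2, L.h1.1, L.h1.2⟩
  · intro p hp x hx
    exact (gmem _ _ _ _ _).1 ((hLk p hp).hor1 x hx)
  · intro p hp y hy
    exact (gmem _ _ _ _ _).1 ((hLk p hp).ver y hy)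
  · intro p hp x y z hm j hj hb
    exact K.avoid p.1 p.2 j _ (hmem p hp).2.2 ((gmem _ _ _ _ _).2 hm) (mem_frame n1 n2 n3 hb)
  · intro p hp q hq x y z hm hm'
    exact K.disj _ _ _ _ _ (hmem p hp).2.2 (hmem q hq).2.2 ((gmem _ _ _ _ _).2 hm)
      ((gmem _ _ _ _ _).2 hm')
  · refine le_trans (Finset.sum_le_sum fun p _ => Finset.card_image_le) ?_
    refine le_trans ?_ K.sum_route
    refine Finset.sum_le_sum_of_subset ?_
    intro p hp
    exact Finset.mem_offDiag.2 ⟨Finset.mem_univ _, Finset.mem_univ _, (hmem p hp).2.2⟩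
  · have hs := K.sum_box S
    have hs' : ∑ j ∈ S, ((Finset.Icc (K.lo j) (K.hi j)).card : ℤ) ≤ K.U.card := by
      exact_mod_cast hs
    refine le_trans (Finset.sum_le_sum fun j _ => ?_) hs'
    rw [K.card_box j n1 n2 n3]
    have a1 := K.box_le j dx
    have a2 := K.box_le j dy
    have a3 := K.box_le j dz
    have : 0 ≤ (K.hi j dx - K.lo j dx + 1) * (K.hi j dz - K.lo j dz + 1) * (K.hi j dy - K.lo j dy) := by
      apply mul_nonneg
      · apply mul_nonneg <;> omega
      · omega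
    nlinarith

end Pool.Agent.H119.OneBend
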