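import Mathlib

/-!
# Three-dimensional orthogonal one-bend box-drawings

Definitions following the problem file: grid boxes, orthogonal routes with at most one bend,
box-drawings of a graph, their volume, and the minimum volume `V₁ n` for `K_n`.
-/

namespace Pool.Agent.H119.OneBend

/-- A grid point of `ℤ³`. -/
abbrev GridPt := Fin 3 → ℤ

/-- A grid point, seen as a point of `ℝ³`. -/
def toReal (p : GridPt) : Fin 3 → ℝ := fun d => (p d : ℝ)

/-- A grid box `[x₁,x₂] × [y₁,y₂] × [z₁,z₂]` with integer bounds `x₁ ≤ x₂`, `y₁ ≤ y₂`,
`z₁ ≤ z₂` (possibly degenerate). -/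
structure GridBox where
  lo : GridPt
  hi : GridPt
  le : ∀ d, lo d ≤ hi d

/-- The box as a subset of `ℝ³`. -/
def GridBox.carrier (B : GridBox) : Set (Fin 3 → ℝ) :=
  {p | ∀ d, (B.lo d : ℝ) ≤ p d ∧ p d ≤ (B.hi d : ℝ)}

/-- The surface of the box: the points of the box with a coordinate at one of its bounds. -/
def GridBox.surface (B : GridBox) : Set (Fin 3 → ℝ) :=
  {p | p ∈ B.carrier ∧ ∃ d, p d = (B.lo d : ℝ) ∨ p d = (B.hi d : ℝ)}

/-- The number of grid points of the box. -/
noncomputable def GridBox.numPts (B : GridBox) : ℕ := (Finset.Icc B.lo B.hi).card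

/-- Two grid points differ in at most one coordinate, i.e. the segment joining them is
axis-parallel (or a point). -/
def AxisParallel (p q : GridPt) : Prop := ∃ d, ∀ d', d' ≠ d → p d' = q d'

/-- An orthogonal route with at most one bend: it starts at `a`, runs along an axis-parallel
segment to `b`, and then along an axis-parallel segment to `c`; the two legs meet only in `b`.
(A straight route is one with a degenerate leg, or with two collinear legs.) -/
structure Route where
  a : GridPt
  b : GridPt
  c : GridPt
  leg₁ : AxisParallel a b
  leg₂ : AxisParallel b c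
  simple : ∀ p ∈ segment ℝ (toReal a) (toReal b), p ∈ segment ℝ (toReal b) (toReal c) →
    p = toReal b

/-- The points of `ℝ³` on the route. -/
def Route.carrier (r : Route) : Set (Fin 3 → ℝ) :=
  segment ℝ (toReal r.a) (toReal r.b) ∪ segment ℝ (toReal r.b) (toReal r.c)

/-- A 3D orthogonal 1-bend box-drawing of the graph `G`: vertices are pairwise disjoint grid
boxes; each edge `uv` is an orthogonal route with at most one bend, which starts on the surface
of the box of one end, ends on the surface of the box of the other end, and meets no box
otherwise; the routes of distinct edges are disjoint. -/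
structure OneBendDrawing {V : Type*} (G : SimpleGraph V) where
  box : V → GridBox
  route : G.edgeSet → Route
  box_disjoint : ∀ u v, u ≠ v → Disjoint (box u).carrier (box v).carrier
  ends : ∀ e : G.edgeSet, ∃ u v, (e : Sym2 V) = s(u, v) ∧
    toReal (route e).a ∈ (box u).surface ∧ toReal (route e).c ∈ (box v).surface
  avoid : ∀ (e : G.edgeSet) (w : V), ∀ p ∈ (route e).carrier, p ∈ (box w).carrier →
    p = toReal (route e).a ∨ p = toReal (route e).c
  route_disjoint : ∀ e f : G.edgeSet, e ≠ f → Disjoint (route e).carrier (route f).carrier

/-- The drawing lies in the grid box `C`. -/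
def OneBendDrawing.ContainedIn {V : Type*} {G : SimpleGraph V} (D : OneBendDrawing G)
    (C : GridBox) : Prop :=
  (∀ u, (D.box u).carrier ⊆ C.carrier) ∧ (∀ e, (D.route e).carrier ⊆ C.carrier)

/-- The volume of a drawing: the number of grid points of a smallest grid box containing it. -/
noncomputable def OneBendDrawing.volume {V : Type*} {G : SimpleGraph V}
    (D : OneBendDrawing G) : ℕ :=
  sInf {v | ∃ C : GridBox, D.ContainedIn C ∧ v = C.numPts}

/-- `V₁ n`: the minimum volume of a 3D orthogonal 1-bend box-drawing of `K_n`. -/
noncomputable def V₁ (n : ℕ) : ℕ :=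
  sInf (Set.range fun D : OneBendDrawing (⊤ : SimpleGraph (Fin n)) => D.volume)

end Pool.Agent.H119.OneBend
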