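import Pool.Agent.H119.OneBend.LemmaB
import Pool.Agent.H119.OneBend.Defs

/-!
# The combinatorial core of a one-bend orthogonal box-drawing of `K_n`
-/

namespace Pool.Agent.H119.OneBend

open Finset

/-- `p` lies coordinatewise between `a` and `b`. -/
def Btw (a b p : Fin 3 → ℤ) : Prop := ∀ d, (a d ≤ p d ∧ p d ≤ b d) ∨ (b d ≤ p d ∧ p d ≤ a d)

/-- Grid-point data extracted from a drawing of the complete graph. -/
structure Core (n : ℕ) where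
  lo : Fin n → Fin 3 → ℤ
  hi : Fin n → Fin 3 → ℤ
  G : Fin n → Fin n → Finset (Fin 3 → ℤ)
  U : Finset (Fin 3 → ℤ)
  box_le : ∀ i d, lo i d ≤ hi i d
  box_disj : ∀ i k, ∀ p : Fin 3 → ℤ, (∀ d, lo i d ≤ p d ∧ p d ≤ hi i d) →
    (∀ d, lo k d ≤ p d ∧ p d ≤ hi k d) → i = k
  box_U : ∀ i, ∀ p : Fin 3 → ℤ, (∀ d, lo i d ≤ p d ∧ p d ≤ hi i d) → p ∈ U
  G_U : ∀ i k, G i k ⊆ U
  G_symm : ∀ i k, G i k = G k i
  route : ∀ i k, i ≠ k → ∃ a b c : Fin 3 → ℤ, (∀ d, lo i d ≤ a d ∧ a d ≤ hi i d) ∧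
    (∀ d, lo k d ≤ c d ∧ c d ≤ hi k d) ∧ AxisParallel a b ∧ AxisParallel b c ∧
    (∀ p, Btw a b p → p ∈ G i k) ∧ (∀ p, Btw b c p → p ∈ G i k)
  avoid : ∀ i k j, ∀ p : Fin 3 → ℤ, i ≠ k → p ∈ G i k → (∀ d, lo j d ≤ p d ∧ p d ≤ hi j d) →
    j = i ∨ j = k
  disj : ∀ i k i' k', ∀ p : Fin 3 → ℤ, i ≠ k → i' ≠ k' → p ∈ G i k → p ∈ G i' k' →
    (i = i' ∧ k = k') ∨ (i = k' ∧ k = i')

/-- The point with prescribed coordinates in the frame `(dx, dy, dz)`. -/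
def mk3 (dx dy : Fin 3) (x y z : ℤ) : Fin 3 → ℤ := fun d =>
  if d = dx then x else if d = dy then y else z

theorem mk3_x (dx dy : Fin 3) (x y z : ℤ) : mk3 dx dy x y z dx = x := by simp [mk3]

theorem mk3_y {dx dy : Fin 3} (h : dx ≠ dy) (x y z : ℤ) : mk3 dx dy x y z dy = y := by
  simp [mk3, h.symm]

theorem mk3_z {dx dy dz : Fin 3} (h1 : dx ≠ dz) (h2 : dy ≠ dz) (x y z : ℤ) :
    mk3 dx dy x y z dz = z := by
  simp [mk3, h1.symm, h2.symm]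

theorem fin3_cases {dx dy dz : Fin 3} (h1 : dx ≠ dy) (h2 : dx ≠ dz) (h3 : dy ≠ dz) (d : Fin 3) :
    d = dx ∨ d = dy ∨ d = dz := by
  revert dx dy dz d; decide

theorem fin3_forall {dx dy dz : Fin 3} (h1 : dx ≠ dy) (h2 : dx ≠ dz) (h3 : dy ≠ dz)
    {Q : Fin 3 → Prop} (hx : Q dx) (hy : Q dy) (hz : Q dz) : ∀ d, Q d := by
  intro d
  rcases fin3_cases h1 h2 h3 d with h | h | h <;> rw [h] <;> assumption

theorem eq_mk3 {dx dy dz : Fin 3} (h1 : dx ≠ dy) (h2 : dx ≠ dz) (h3 : dy ≠ dz) (p : Fin 3 → ℤ) :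
    p = mk3 dx dy (p dx) (p dy) (p dz) := by
  funext d
  rcases fin3_cases h1 h2 h3 d with h | h | h <;> rw [h]
  · rw [mk3_x]
  · rw [mk3_y h1]
  · rw [mk3_z h2 h3]

/-- Link facts for the pair `(i,k)` in the frame `(dx,dy,dz)`: the route lies in the plane
at level `h`, its vertical leg is at column `xb` between rows `ri` and `rk`; its ends are at
`(ei, ri)` and `(ek, rk)`. -/
structure Link (lo hi : Fin 3 → ℤ) (lo' hi' : Fin 3 → ℤ) (G : Finset (Fin 3 → ℤ))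
    (dx dy dz : Fin 3) (h xb ei ri ek rk : ℤ) : Prop where
  e1 : lo dx ≤ ei ∧ ei ≤ hi dx
  r1 : lo dy ≤ ri ∧ ri ≤ hi dy
  h1 : lo dz ≤ h ∧ h ≤ hi dz
  e2 : lo' dx ≤ ek ∧ ek ≤ hi' dx
  r2 : lo' dy ≤ rk ∧ rk ≤ hi' dy
  h2 : lo' dz ≤ h ∧ h ≤ hi' dz
  hor1 : ∀ x, (ei ≤ x ∧ x ≤ xb ∨ xb ≤ x ∧ x ≤ ei) → mk3 dx dy x ri h ∈ G
  hor2 : ∀ x, (ek ≤ x ∧ x ≤ xb ∨ xb ≤ x ∧ x ≤ ek) → mk3 dx dy x rk h ∈ G
  ver : ∀ y, (ri ≤ y ∧ y ≤ rk ∨ rk ≤ y ∧ y ≤ ri) → mk3 dx dy xb y h ∈ G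
  deg : ei = xb ∨ ek = xb

theorem Link.swap {lo hi lo' hi' : Fin 3 → ℤ} {G : Finset (Fin 3 → ℤ)}
    {dx dy dz : Fin 3} {h xb ei ri ek rk : ℤ}
    (L : Link lo hi lo' hi' G dx dy dz h xb ei ri ek rk) :
    Link lo' hi' lo hi G dx dy dz h xb ek rk ei ri where
  e1 := L.e2
  r1 := L.r2
  h1 := L.h2
  e2 := L.e1
  r2 := L.r1
  h2 := L.h1
  hor1 := L.hor2
  hor2 := L.hor1
  ver := fun y hy => L.ver y hy.symm
  deg := L.deg.symm

/-- A one-bend route lying in a plane orthogonal to `dz` gives link facts. -/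
theorem link_of_flat {lo hi lo' hi' : Fin 3 → ℤ} {G : Finset (Fin 3 → ℤ)}
    {dx dy dz : Fin 3} (n1 : dx ≠ dy) (n2 : dx ≠ dz) (n3 : dy ≠ dz)
    {a b c : Fin 3 → ℤ} (ha : ∀ d, lo d ≤ a d ∧ a d ≤ hi d) (hc : ∀ d, lo' d ≤ c d ∧ c d ≤ hi' d)
    (hab : AxisParallel a b) (hbc : AxisParallel b c)
    (h1 : ∀ p, Btw a b p → p ∈ G) (h2 : ∀ p, Btw b c p → p ∈ G)
    (f1 : a dz = b dz) (f2 : b dz = c dz) :
    ∃ h xb ei ri ek rk, Link lo hi lo' hi' G dx dy dz h xb ei ri ek rk := by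
  -- membership from coordinates
  have m1 : ∀ x y z : ℤ, (a dx ≤ x ∧ x ≤ b dx ∨ b dx ≤ x ∧ x ≤ a dx) →
      (a dy ≤ y ∧ y ≤ b dy ∨ b dy ≤ y ∧ y ≤ a dy) → z = a dz → mk3 dx dy x y z ∈ G := by
    intro x y z hx hy hz
    refine h1 _ (fin3_forall n1 n2 n3 ?_ ?_ ?_)
    · rw [mk3_x]; exact hx
    · rw [mk3_y n1]; exact hy
    · rw [mk3_z n2 n3]; left; constructor <;> omega
  have m2 : ∀ x y z : ℤ, (b dx ≤ x ∧ x ≤ c dx ∨ c dx ≤ x ∧ x ≤ b dx) →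
      (b dy ≤ y ∧ y ≤ c dy ∨ c dy ≤ y ∧ y ≤ b dy) → z = a dz → mk3 dx dy x y z ∈ G := by
    intro x y z hx hy hz
    refine h2 _ (fin3_forall n1 n2 n3 ?_ ?_ ?_)
    · rw [mk3_x]; exact hx
    · rw [mk3_y n1]; exact hy
    · rw [mk3_z n2 n3]; left; constructor <;> omega
  have hab' : a dx = b dx ∨ a dy = b dy := by
    obtain ⟨d, hd⟩ := hab
    by_cases q : dx = d
    · right; exact hd dy (by rw [← q]; exact n1.symm)
    · left; exact hd dx q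
  have hbc' : b dx = c dx ∨ b dy = c dy := by
    obtain ⟨d, hd⟩ := hbc
    by_cases q : dx = d
    · right; exact hd dy (by rw [← q]; exact n1.symm)
    · left; exact hd dx q
  have ax := ha dx
  have ay := ha dy
  have az := ha dz
  have cx := hc dx
  have cy := hc dy
  have cz := hc dz
  rcases hab' with p | p
  · rcases hbc' with q | q
    · -- both vertical
      refine ⟨a dz, a dx, a dx, a dy, c dx, c dy, ax, ay, az, cx, cy, by omega, ?_, ?_, ?_,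
        Or.inl rfl⟩
      · intro x hx
        exact m1 _ _ _ (by omega) (by omega) rfl
      · intro x hx
        exact m2 _ _ _ (by omega) (by omega) rfl
      · intro y hy
        by_cases hh : (a dy ≤ y ∧ y ≤ b dy ∨ b dy ≤ y ∧ y ≤ a dy)
        · exact m1 _ _ _ (by omega) hh rfl
        · exact m2 _ _ _ (by omega) (by omega) rfl
    · -- vertical then horizontal
      refine ⟨a dz, a dx, a dx, a dy, c dx, c dy, ax, ay, az, cx, cy, by omega, ?_, ?_, ?_,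
        Or.inl rfl⟩
      · intro x hx
        exact m1 _ _ _ (by omega) (by omega) rfl
      · intro x hx
        exact m2 _ _ _ (by omega) (by omega) rfl
      · intro y hy
        exact m1 _ _ _ (by omega) (by omega) rfl
  · rcases hbc' with q | q
    · -- horizontal then vertical
      refine ⟨a dz, c dx, a dx, a dy, c dx, c dy, ax, ay, az, cx, cy, by omega, ?_, ?_, ?_,
        Or.inr rfl⟩
      · intro x hx
        exact m1 _ _ _ (by omega) (by omega) rfl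
      · intro x hx
        exact m2 _ _ _ (by omega) (by omega) rfl
      · intro y hy
        exact m2 _ _ _ (by omega) (by omega) rfl
    · -- both horizontal
      refine ⟨a dz, c dx, a dx, a dy, c dx, c dy, ax, ay, az, cx, cy, by omega, ?_, ?_, ?_,
        Or.inr rfl⟩
      · intro x hx
        by_cases hh : (a dx ≤ x ∧ x ≤ b dx ∨ b dx ≤ x ∧ x ≤ a dx)
        · exact m1 _ _ _ hh (by omega) rfl
        · exact m2 _ _ _ (by omega) (by omega) rfl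
      · intro x hx
        exact m2 _ _ _ (by omega) (by omega) rfl
      · intro y hy
        exact m2 _ _ _ (by omega) (by omega) rfl

/-- The route between `i` and `k` lies in a plane orthogonal to `dz`: link facts exist in
every frame with third direction `dz`. -/
def Core.Flat {n : ℕ} (K : Core n) (dz : Fin 3) (i k : Fin n) : Prop :=
  ∀ dx dy : Fin 3, dx ≠ dy → dx ≠ dz → dy ≠ dz → ∃ h xb ei ri ek rk,
    Link (K.lo i) (K.hi i) (K.lo k) (K.hi k) (K.G i k) dx dy dz h xb ei ri ek rk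

theorem Core.Flat.symm {n : ℕ} {K : Core n} {dz : Fin 3} {i k : Fin n} (h : K.Flat dz i k) :
    K.Flat dz k i := by
  intro dx dy n1 n2 n3
  obtain ⟨h, xb, ei, ri, ek, rk, L⟩ := h dx dy n1 n2 n3
  refine ⟨h, xb, ek, rk, ei, ri, ?_⟩
  rw [K.G_symm k i]
  exact L.swap

theorem Core.exists_flat {n : ℕ} (K : Core n) (i k : Fin n) (hik : i ≠ k) :
    ∃ dz, K.Flat dz i k := by
  obtain ⟨a, b, c, ha, hc, ⟨d1, hab⟩, ⟨d2, hbc⟩, g1, g2⟩ := K.route i k hik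
  have key : ∀ d1 d2 : Fin 3, ∃ dz : Fin 3, dz ≠ d1 ∧ dz ≠ d2 := by decide
  obtain ⟨dz, z1, z2⟩ := key d1 d2
  refine ⟨dz, fun dx dy n1 n2 n3 => ?_⟩
  exact link_of_flat n1 n2 n3 ha hc ⟨d1, hab⟩ ⟨d2, hbc⟩ g1 g2 (hab dz z1) (hbc dz z2)

end Pool.Agent.H119.OneBend
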