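import Pool.Agent.H119.OneBend.Lower

/-!
# From drawings to cores, and the two bounds for `V₁`
-/

namespace Pool.Agent.H119.OneBend

open Finset

theorem toReal_inj {p q : GridPt} (h : toReal p = toReal q) : p = q := by
  funext d
  have := congrFun h d
  simpa [toReal] using this

theorem mem_carrier_toReal (B : GridBox) (p : GridPt) :
    toReal p ∈ B.carrier ↔ ∀ d, B.lo d ≤ p d ∧ p d ≤ B.hi d := by
  simp only [GridBox.carrier, Set.mem_ofPred_eq, toReal, Int.cast_le]

theorem AxisParallel.symm {p q : GridPt} (h : AxisParallel p q) : AxisParallel q p := by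
  obtain ⟨d, hd⟩ := h
  exact ⟨d, fun d' h' => (hd d' h').symm⟩

theorem seg_mem {a b p : GridPt} (h : AxisParallel a b) (hp : Btw a b p) :
    toReal p ∈ segment ℝ (toReal a) (toReal b) := by
  obtain ⟨d, hd⟩ := h
  by_cases he : a d = b d
  · have hab : p = a := by
      funext d'
      have h1 := hp d'
      by_cases q : d' = d
      · rw [q] at h1 ⊢; omega
      · have := hd d' q; omega
    rw [hab]
    exact left_mem_segment _ _ _
  · have hne : (b d : ℝ) - a d ≠ 0 := by
      intro h
      apply he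
      have : (a d : ℝ) = b d := by linarith
      exact_mod_cast this
    have h1 := hp d
    have ht : 0 ≤ ((p d : ℝ) - a d) / (b d - a d) ∧ ((p d : ℝ) - a d) / (b d - a d) ≤ 1 := by
      rcases h1 with ⟨u, v⟩ | ⟨u, v⟩
      · have u' : (a d : ℝ) ≤ p d := by exact_mod_cast u
        have v' : (p d : ℝ) ≤ b d := by exact_mod_cast v
        have hpos : (0 : ℝ) < b d - a d := lt_of_le_of_ne (by linarith) (Ne.symm hne)
        constructor
        · exact div_nonneg (by linarith) hpos.le
        · rw [div_le_one hpos]; linarith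
      · have u' : (b d : ℝ) ≤ p d := by exact_mod_cast u
        have v' : (p d : ℝ) ≤ a d := by exact_mod_cast v
        have hneg : (b d : ℝ) - a d < 0 := lt_of_le_of_ne (by linarith) hne
        constructor
        · exact div_nonneg_of_nonpos (by linarith) hneg.le
        · rw [div_le_one_of_neg hneg]; linarith
    refine ⟨1 - ((p d : ℝ) - a d) / (b d - a d), ((p d : ℝ) - a d) / (b d - a d), by linarith,
      ht.1, by ring, ?_⟩
    funext d'
    simp only [Pi.add_apply, Pi.smul_apply, smul_eq_mul, toReal]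
    by_cases q : d' = d
    · subst q
      field_simp
      ring
    · have e1 := hd d' q
      have e2 : p d' = a d' := by have := hp d'; omega
      rw [← e1, e2]
      ring

theorem seg_coord {x y p : Fin 3 → ℝ} (h : p ∈ segment ℝ x y) (d : Fin 3) :
    (x d ≤ p d ∧ p d ≤ y d) ∨ (y d ≤ p d ∧ p d ≤ x d) := by
  obtain ⟨s, t, hs, ht, hst, rfl⟩ := h
  simp only [Pi.add_apply, Pi.smul_apply, smul_eq_mul]
  have e : s = 1 - t := by linarith
  subst e
  rcases le_total (x d) (y d) with q | q
  · left; constructor <;> nlinarith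
  · right; constructor <;> nlinarith

theorem seg_coord_eq {x y p : Fin 3 → ℝ} (h : p ∈ segment ℝ x y) {d : Fin 3} (e : x d = y d) :
    p d = x d := by
  rcases seg_coord h d with q | q <;> linarith [q.1, q.2]

theorem edge_mem {n : ℕ} {i k : Fin n} (h : i ≠ k) :
    s(i, k) ∈ (⊤ : SimpleGraph (Fin n)).edgeSet := by
  simpa using h

open Classical in
/-- The grid points on the route between `i` and `k`. -/
noncomputable def gridRoute {n : ℕ} (D : OneBendDrawing (⊤ : SimpleGraph (Fin n))) (C : GridBox)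
    (i k : Fin n) : Finset GridPt :=
  (Finset.Icc C.lo C.hi).filter (fun p =>
    ∃ h : i ≠ k, toReal p ∈ (D.route ⟨s(i, k), edge_mem h⟩).carrier)

theorem edge_comm {n : ℕ} {i k : Fin n} (h : i ≠ k) :
    (⟨s(i, k), edge_mem h⟩ : (⊤ : SimpleGraph (Fin n)).edgeSet) =
      ⟨s(k, i), edge_mem h.symm⟩ := Subtype.ext Sym2.eq_swap

open Classical in
/-- The core of a drawing of `K_n` contained in a grid box. -/
noncomputable def coreOf {n : ℕ} (D : OneBendDrawing (⊤ : SimpleGraph (Fin n))) (C : GridBox)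
    (hC : D.ContainedIn C) : Core n where
  lo i := (D.box i).lo
  hi i := (D.box i).hi
  G := gridRoute D C
  U := Finset.Icc C.lo C.hi
  box_le i d := (D.box i).le d
  box_disj := by
    intro i k p h1 h2
    by_contra hne
    have := D.box_disjoint i k hne
    rw [Set.disjoint_left] at this
    exact this ((mem_carrier_toReal _ _).2 h1) ((mem_carrier_toReal _ _).2 h2)
  box_U := by
    intro i p h
    have := hC.1 i ((mem_carrier_toReal _ _).2 h)
    rw [mem_carrier_toReal] at this
    exact Finset.mem_Icc.2 ⟨fun d => (this d).1, fun d => (this d).2⟩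
  G_U := fun i k => Finset.filter_subset _ _
  G_symm := by
    intro i k
    ext p
    simp only [gridRoute, Finset.mem_filter]
    constructor
    · rintro ⟨h1, h2, h3⟩
      refine ⟨h1, h2.symm, ?_⟩
      rwa [← edge_comm h2]
    · rintro ⟨h1, h2, h3⟩
      refine ⟨h1, h2.symm, ?_⟩
      rwa [← edge_comm h2]
  route := by
    intro i k hik
    set e : (⊤ : SimpleGraph (Fin n)).edgeSet := ⟨s(i, k), edge_mem hik⟩ with he
    obtain ⟨u, v, huv, ha, hc⟩ := D.ends e
    have hmem : ∀ p : GridPt, toReal p ∈ (D.route e).carrier → p ∈ gridRoute D C i k := by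
      intro p hp
      have h1 := hC.2 e hp
      rw [mem_carrier_toReal] at h1
      exact Finset.mem_filter.2 ⟨Finset.mem_Icc.2 ⟨fun d => (h1 d).1, fun d => (h1 d).2⟩,
        hik, hp⟩
    have ha' := (mem_carrier_toReal _ _).1 ha.1
    have hc' := (mem_carrier_toReal _ _).1 hc.1
    have h1 : ∀ p, Btw (D.route e).a (D.route e).b p → p ∈ gridRoute D C i k := fun p hp =>
      hmem p (Or.inl (seg_mem (D.route e).leg₁ hp))
    have h2 : ∀ p, Btw (D.route e).b (D.route e).c p → p ∈ gridRoute D C i k := fun p hp =>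
      hmem p (Or.inr (seg_mem (D.route e).leg₂ hp))
    have huv' : s(i, k) = s(u, v) := huv
    rw [Sym2.eq_iff] at huv'
    rcases huv' with ⟨rfl, rfl⟩ | ⟨rfl, rfl⟩
    · exact ⟨_, _, _, ha', hc', (D.route e).leg₁, (D.route e).leg₂, h1, h2⟩
    · refine ⟨_, _, _, hc', ha', (D.route e).leg₂.symm, (D.route e).leg₁.symm, ?_, ?_⟩
      · intro p hp
        exact h2 p (fun d => (hp d).symm)
      · intro p hp
        exact h1 p (fun d => (hp d).symm)
  avoid := by
    intro i k j p hik hp hj
    obtain ⟨_, h2, h3⟩ := Finset.mem_filter.1 hp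
    set e : (⊤ : SimpleGraph (Fin n)).edgeSet := ⟨s(i, k), edge_mem h2⟩ with he
    obtain ⟨u, v, huv, ha, hc⟩ := D.ends e
    have huv' : s(i, k) = s(u, v) := huv
    have hj' := (mem_carrier_toReal (D.box j) p).2 hj
    have key : j = u ∨ j = v := by
      rcases D.avoid e j _ h3 hj' with h | h
      · left
        by_contra hne
        have := D.box_disjoint j u hne
        rw [Set.disjoint_left] at this
        exact this hj' (h ▸ ha.1)
      · right
        by_contra hne
        have := D.box_disjoint j v hne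
        rw [Set.disjoint_left] at this
        exact this hj' (h ▸ hc.1)
    rw [Sym2.eq_iff] at huv'
    rcases huv' with ⟨rfl, rfl⟩ | ⟨rfl, rfl⟩
    · exact key
    · exact key.symm
  disj := by
    intro i k i' k' p hik hik' hp hp'
    obtain ⟨_, h2, h3⟩ := Finset.mem_filter.1 hp
    obtain ⟨_, h2', h3'⟩ := Finset.mem_filter.1 hp'
    by_contra hcon
    have hne : (⟨s(i, k), edge_mem h2⟩ : (⊤ : SimpleGraph (Fin n)).edgeSet) ≠
        ⟨s(i', k'), edge_mem h2'⟩ := by
      intro h
      have h4 : s(i, k) = s(i', k') := congrArg Subtype.val h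
      rw [Sym2.eq_iff] at h4
      exact hcon h4
    have := D.route_disjoint _ _ hne
    rw [Set.disjoint_left] at this
    exact this h3 h3'

theorem GridBox.one_le_numPts (C : GridBox) : 1 ≤ C.numPts := by
  rw [GridBox.numPts, Nat.one_le_iff_ne_zero, Ne, Finset.card_eq_zero, ← Ne,
    ← Finset.nonempty_iff_ne_empty]
  exact ⟨C.lo, Finset.mem_Icc.2 ⟨le_refl _, C.le⟩⟩

theorem GridBox.carrier_eq (C : GridBox) : C.carrier = Set.Icc (toReal C.lo) (toReal C.hi) := by
  ext p
  simp only [GridBox.carrier, Set.mem_ofPred_eq, Set.mem_Icc, Pi.le_def, toReal]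
  exact ⟨fun h => ⟨fun d => (h d).1, fun d => (h d).2⟩, fun h d => ⟨h.1 d, h.2 d⟩⟩

theorem exists_bound {α : Type*} [Finite α] (f : α → GridPt) :
    ∃ N : ℤ, ∀ x d, -N ≤ f x d ∧ f x d ≤ N := by
  obtain ⟨N, hN⟩ := (Set.finite_range (fun q : α × Fin 3 => |f q.1 q.2|)).bddAbove
  refine ⟨N, fun x d => ?_⟩
  have := hN ⟨(x, d), rfl⟩
  exact abs_le.1 this

/-- Every drawing of `K_n` lies in some grid box. -/
theorem exists_container {n : ℕ} (D : OneBendDrawing (⊤ : SimpleGraph (Fin n))) :
    ∃ C : GridBox, D.ContainedIn C := by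
  obtain ⟨N1, h1⟩ := exists_bound (fun i => (D.box i).lo)
  obtain ⟨N2, h2⟩ := exists_bound (fun i => (D.box i).hi)
  obtain ⟨N3, h3⟩ := exists_bound (fun e => (D.route e).a)
  obtain ⟨N4, h4⟩ := exists_bound (fun e => (D.route e).b)
  obtain ⟨N5, h5⟩ := exists_bound (fun e => (D.route e).c)
  let N : ℤ := |N1| + |N2| + |N3| + |N4| + |N5|
  have a1 := abs_nonneg N1
  have a2 := abs_nonneg N2
  have a3 := abs_nonneg N3
  have a4 := abs_nonneg N4
  have a5 := abs_nonneg N5
  have b1 := le_abs_self N1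
  have b2 := le_abs_self N2
  have b3 := le_abs_self N3
  have b4 := le_abs_self N4
  have b5 := le_abs_self N5
  let C : GridBox := ⟨fun _ => -N, fun _ => N, fun _ => by simp only [N]; omega⟩
  refine ⟨C, ?_, ?_⟩
  · intro u p hp d
    have q1 := (h1 u d).1
    have q2 := (h2 u d).2
    have r1 : (-N : ℤ) ≤ (D.box u).lo d := by simp only [N]; omega
    have r2 : (D.box u).hi d ≤ N := by simp only [N]; omega
    have s1 : ((-N : ℤ) : ℝ) ≤ (D.box u).lo d := by exact_mod_cast r1
    have s2 : ((D.box u).hi d : ℝ) ≤ (N : ℤ) := by exact_mod_cast r2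
    exact ⟨s1.trans (hp d).1, (hp d).2.trans s2⟩
  · intro e
    have hconv : Convex ℝ C.carrier := by
      rw [GridBox.carrier_eq]; exact convex_Icc _ _
    have ma : toReal (D.route e).a ∈ C.carrier := by
      rw [mem_carrier_toReal]
      intro d
      have := h3 e d
      simp only [C, N]
      constructor <;> omega
    have mb : toReal (D.route e).b ∈ C.carrier := by
      rw [mem_carrier_toReal]
      intro d
      have := h4 e d
      simp only [C, N]
      constructor <;> omega
    have mc : toReal (D.route e).c ∈ C.carrier := by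
      rw [mem_carrier_toReal]
      intro d
      have := h5 e d
      simp only [C, N]
      constructor <;> omega
    exact Set.union_subset (hconv.segment_subset ma mb) (hconv.segment_subset mb mc)

theorem volume_spec {n : ℕ} (D : OneBendDrawing (⊤ : SimpleGraph (Fin n))) :
    ∃ C : GridBox, D.ContainedIn C ∧ D.volume = C.numPts := by
  obtain ⟨C, hC⟩ := exists_container D
  exact Nat.sInf_mem (s := {v | ∃ C : GridBox, D.ContainedIn C ∧ v = C.numPts}) ⟨_, C, hC, rfl⟩

theorem volume_lower {n : ℕ} (hn : 10 ^ 10 ≤ n) (D : OneBendDrawing (⊤ : SimpleGraph (Fin n))) :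
    (n : ℝ) ^ 3 / 10 ^ 19 ≤ D.volume := by
  obtain ⟨C, hC, hv⟩ := volume_spec D
  rw [hv]
  exact (coreOf D C hC).lower hn

/-- The diagonal drawing. -/
theorem exists_ordered {n : ℕ} (e : (⊤ : SimpleGraph (Fin n)).edgeSet) :
    ∃ p : Fin n × Fin n, p.1 < p.2 ∧ (e : Sym2 (Fin n)) = s(p.1, p.2) := by
  obtain ⟨e, he⟩ := e
  induction e using Sym2.ind with
  | _ i j =>
    have hij : i ≠ j := by simpa using he
    rcases lt_or_gt_of_ne hij with h | h
    · exact ⟨(i, j), h, rfl⟩
    · exact ⟨(j, i), h, Sym2.eq_swap⟩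

/-- The route of the diagonal drawing for the pair `i < j`. -/
def diagRoute (i j : ℤ) : Route where
  a := ![i, i, i + j]
  b := ![i, j, i + j]
  c := ![j, j, i + j]
  leg₁ := ⟨1, by intro d hd; fin_cases d <;> simp_all⟩
  leg₂ := ⟨0, by intro d hd; fin_cases d <;> simp_all⟩
  simple := by
    intro p h1 h2
    have a0 := seg_coord_eq h1 (d := 0) (by simp [toReal])
    have a2 := seg_coord_eq h1 (d := 2) (by simp [toReal])
    have b1 := seg_coord_eq h2 (d := 1) (by simp [toReal])
    funext d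
    fin_cases d
    · simpa [toReal] using a0
    · simpa [toReal] using b1
    · simpa [toReal] using a2

theorem diagRoute_mem {i j : ℤ} (hij : i < j) {p : Fin 3 → ℝ} (hp : p ∈ (diagRoute i j).carrier) :
    p 2 = i + j ∧ ((p 0 = i ∧ (i : ℝ) ≤ p 1 ∧ p 1 ≤ j) ∨ (p 1 = j ∧ (i : ℝ) ≤ p 0 ∧ p 0 ≤ j)) := by
  have hij' : (i : ℝ) < j := by exact_mod_cast hij
  rcases hp with hp | hp
  · have a0 := seg_coord_eq hp (d := 0) (by simp [toReal, diagRoute])
    have a2 := seg_coord_eq hp (d := 2) (by simp [toReal, diagRoute])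
    have a1 := seg_coord hp 1
    simp [toReal, diagRoute] at a0 a1 a2
    refine ⟨a2, Or.inl ⟨a0, ?_, ?_⟩⟩
    · rcases a1 with h | h <;> linarith [h.1, h.2]
    · rcases a1 with h | h <;> linarith [h.1, h.2]
  · have a0 := seg_coord hp 0
    have a1 := seg_coord_eq hp (d := 1) (by simp [toReal, diagRoute])
    have a2 := seg_coord_eq hp (d := 2) (by simp [toReal, diagRoute])
    simp [toReal, diagRoute] at a0 a1 a2
    refine ⟨a2, Or.inr ⟨a1, ?_, ?_⟩⟩
    · rcases a0 with h | h <;> linarith [h.1, h.2]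
    · rcases a0 with h | h <;> linarith [h.1, h.2]

/-- The pair of ends of an edge, in increasing order. -/
noncomputable def ordPair {n : ℕ} (e : (⊤ : SimpleGraph (Fin n)).edgeSet) : Fin n × Fin n :=
  (exists_ordered e).choose

theorem ordPair_spec {n : ℕ} (e : (⊤ : SimpleGraph (Fin n)).edgeSet) :
    (ordPair e).1 < (ordPair e).2 ∧ (e : Sym2 (Fin n)) = s((ordPair e).1, (ordPair e).2) :=
  (exists_ordered e).choose_spec

theorem ordPair_lt {n : ℕ} (e : (⊤ : SimpleGraph (Fin n)).edgeSet) :
    (((ordPair e).1 : ℕ) : ℤ) < (((ordPair e).2 : ℕ) : ℤ) := by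
  have := (ordPair_spec e).1
  exact_mod_cast this

/-- The vertex box of the diagonal drawing. -/
def diagBox (n : ℕ) (i : Fin n) : GridBox where
  lo := ![(i : ℕ), (i : ℕ), 0]
  hi := ![(i : ℕ), (i : ℕ), 2 * n - 1]
  le := by
    intro d
    have := i.2
    fin_cases d
    · simp
    · simp
    · simp; omega

theorem diagBox_mem {n : ℕ} {i : Fin n} {p : Fin 3 → ℝ} :
    p ∈ (diagBox n i).carrier ↔ p 0 = (i : ℕ) ∧ p 1 = (i : ℕ) ∧ 0 ≤ p 2 ∧ p 2 ≤ 2 * n - 1 := by
  simp only [GridBox.carrier, diagBox, Set.mem_ofPred_eq]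
  constructor
  · intro h
    have h0 := h 0
    have h1 := h 1
    have h2 := h 2
    simp at h0 h1 h2
    exact ⟨le_antisymm h0.2 h0.1, le_antisymm h1.2 h1.1, h2.1, h2.2⟩
  · rintro ⟨h0, h1, h2, h3⟩ d
    fin_cases d
    · simp [h0]
    · simp [h1]
    · simp [h2, h3]

/-- The diagonal drawing of `K_n` (Biedl et al.): `v_i` is a vertical segment over `(i,i)`, the
edge `v_i v_j` lies in the plane `z = i + j`. -/
noncomputable def diagDrawing (n : ℕ) : OneBendDrawing (⊤ : SimpleGraph (Fin n)) where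
  box := diagBox n
  route := fun e => diagRoute (((ordPair e).1 : ℕ) : ℤ) (((ordPair e).2 : ℕ) : ℤ)
  box_disjoint := by
    intro u v huv
    rw [Set.disjoint_left]
    intro p hp hp'
    rw [diagBox_mem] at hp hp'
    have : ((u : ℕ) : ℝ) = (v : ℕ) := hp.1.symm.trans hp'.1
    exact huv (Fin.ext (by exact_mod_cast this))
  ends := by
    intro e
    obtain ⟨h1, h2⟩ := ordPair_spec e
    have l1 := (ordPair e).1.2
    have l2 := (ordPair e).2.2
    have l3 : ((ordPair e).1 : ℕ) < (ordPair e).2 := h1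
    have l4 : (((ordPair e).1 : ℕ) : ℝ) + ((ordPair e).2 : ℕ) ≤ 2 * n - 1 := by
      have : ((ordPair e).1 : ℕ) + ((ordPair e).2 : ℕ) + 1 ≤ 2 * n := by omega
      have h : ((((ordPair e).1 : ℕ) + ((ordPair e).2 : ℕ) + 1 : ℕ) : ℝ) ≤ ((2 * n : ℕ) : ℝ) := by
        exact_mod_cast this
      push_cast at h
      linarith
    refine ⟨_, _, h2, ⟨?_, 0, Or.inl ?_⟩, ⟨?_, 0, Or.inl ?_⟩⟩
    · rw [diagBox_mem]
      simp only [toReal, diagRoute]
      simp
      exact ⟨by positivity, l4⟩
    · simp [toReal, diagRoute, diagBox]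
    · rw [diagBox_mem]
      simp only [toReal, diagRoute]
      simp
      exact ⟨by positivity, l4⟩
    · simp [toReal, diagRoute, diagBox]
  avoid := by
    intro e w p hp hw
    have hlt := ordPair_lt e
    have hlt' : ((((ordPair e).1 : ℕ) : ℤ) : ℝ) < ((((ordPair e).2 : ℕ) : ℤ) : ℝ) := by
      exact_mod_cast hlt
    obtain ⟨h2, h⟩ := diagRoute_mem hlt hp
    rw [diagBox_mem] at hw
    obtain ⟨w0, w1, _, _⟩ := hw
    rcases h with ⟨h0, h1, h1'⟩ | ⟨h1, h0, h0'⟩
    · left
      funext d
      fin_cases d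
      · simpa [toReal, diagRoute] using h0
      · have : p 1 = p 0 := by rw [w0, w1]
        simpa [toReal, diagRoute, this] using h0
      · simpa [toReal, diagRoute] using h2
    · right
      funext d
      fin_cases d
      · have : p 0 = p 1 := by rw [w0, w1]
        simpa [toReal, diagRoute, this] using h1
      · simpa [toReal, diagRoute] using h1
      · simpa [toReal, diagRoute] using h2
  route_disjoint := by
    intro e f hef
    rw [Set.disjoint_left]
    intro p hp hp'
    have l1 := ordPair_lt e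
    have l2 := ordPair_lt f
    obtain ⟨h2, h⟩ := diagRoute_mem l1 hp
    obtain ⟨h2', h'⟩ := diagRoute_mem l2 hp'
    have hs : (((ordPair e).1 : ℕ) : ℤ) + (((ordPair e).2 : ℕ) : ℤ) =
        (((ordPair f).1 : ℕ) : ℤ) + (((ordPair f).2 : ℕ) : ℤ) := by
      have : ((((ordPair e).1 : ℕ) : ℤ) : ℝ) + (((ordPair e).2 : ℕ) : ℤ) =
        (((ordPair f).1 : ℕ) : ℤ) + (((ordPair f).2 : ℕ) : ℤ) := h2.symm.trans h2'
      exact_mod_cast this
    have hne : (((ordPair e).1 : ℕ) : ℤ) ≠ (((ordPair f).1 : ℕ) : ℤ) := by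
      intro h1
      apply hef
      have h3 : (((ordPair e).2 : ℕ) : ℤ) = (((ordPair f).2 : ℕ) : ℤ) := by omega
      have h1' : (ordPair e).1 = (ordPair f).1 := Fin.ext (by exact_mod_cast h1)
      have h3' : (ordPair e).2 = (ordPair f).2 := Fin.ext (by exact_mod_cast h3)
      apply Subtype.ext
      rw [(ordPair_spec e).2, (ordPair_spec f).2, h1', h3']
    generalize (((ordPair e).1 : ℕ) : ℤ) = i at *
    generalize (((ordPair e).2 : ℕ) : ℤ) = j at *
    generalize (((ordPair f).1 : ℕ) : ℤ) = k at *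
    generalize (((ordPair f).2 : ℕ) : ℤ) = l at *
    have hs' : (i : ℝ) + j = k + l := by exact_mod_cast hs
    have hij : (i : ℝ) < j := by exact_mod_cast l1
    have hkl : (k : ℝ) < l := by exact_mod_cast l2
    rcases lt_or_gt_of_ne hne with q | q
    · have q' : (i : ℝ) < k := by exact_mod_cast q
      rcases h with ⟨a, b, c⟩ | ⟨a, b, c⟩ <;> rcases h' with ⟨a', b', c'⟩ | ⟨a', b', c'⟩ <;>
        linarith
    · have q' : (k : ℝ) < i := by exact_mod_cast q
      rcases h with ⟨a, b, c⟩ | ⟨a, b, c⟩ <;> rcases h' with ⟨a', b', c'⟩ | ⟨a', b', c'⟩ <;>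
        linarith

/-- The container of the diagonal drawing. -/
def diagContainer (n : ℕ) (hn : 1 ≤ n) : GridBox where
  lo := ![0, 0, 0]
  hi := ![n - 1, n - 1, 2 * n - 1]
  le := by
    intro d
    fin_cases d
    · simp; omega
    · simp; omega
    · simp; omega

theorem diag_contained (n : ℕ) (hn : 1 ≤ n) :
    (diagDrawing n).ContainedIn (diagContainer n hn) := by
  have key : ∀ i : Fin n, (0 : ℝ) ≤ (i : ℕ) ∧ ((i : ℕ) : ℝ) ≤ n - 1 := by
    intro i
    have h := i.2
    have h2 : (((i : ℕ) + 1 : ℕ) : ℝ) ≤ n := by exact_mod_cast h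
    push_cast at h2
    exact ⟨by positivity, by linarith⟩
  refine ⟨?_, ?_⟩
  · intro u p hp
    have hp' := diagBox_mem.1 hp
    have hu := key u
    intro d
    fin_cases d
    · simp [diagContainer, hp'.1]; exact hu.2
    · simp [diagContainer, hp'.2.1]; exact hu.2
    · simp [diagContainer]; exact ⟨hp'.2.2.1, hp'.2.2.2⟩
  · intro e p hp
    obtain ⟨h2, h⟩ := diagRoute_mem (ordPair_lt e) hp
    have k1 := key (ordPair e).1
    have k2 := key (ordPair e).2
    have k3 := (ordPair_spec e).1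
    push_cast at h2 h
    have k4 : (((ordPair e).1 : ℕ) : ℝ) + ((ordPair e).2 : ℕ) ≤ 2 * n - 1 := by linarith
    intro d
    fin_cases d
    · simp [diagContainer]
      rcases h with ⟨a, b, c⟩ | ⟨a, b, c⟩ <;> constructor <;> linarith
    · simp [diagContainer]
      rcases h with ⟨a, b, c⟩ | ⟨a, b, c⟩ <;> constructor <;> linarith
    · simp [diagContainer]
      constructor <;> linarith

theorem diagContainer_card (n : ℕ) (hn : 1 ≤ n) : (diagContainer n hn).numPts = 2 * n ^ 3 := by
  rw [GridBox.numPts, Pi.card_Icc, Fin.prod_univ_three]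
  have h1 : (Finset.Icc (0 : ℤ) ((n : ℤ) - 1)).card = n := by
    rw [Int.card_Icc]; omega
  have h2 : (Finset.Icc (0 : ℤ) (2 * (n : ℤ) - 1)).card = 2 * n := by
    rw [Int.card_Icc]; omega
  have e0 : (Finset.Icc ((diagContainer n hn).lo 0) ((diagContainer n hn).hi 0)).card = n := h1
  have e1 : (Finset.Icc ((diagContainer n hn).lo 1) ((diagContainer n hn).hi 1)).card = n := h1
  have e2 : (Finset.Icc ((diagContainer n hn).lo 2) ((diagContainer n hn).hi 2)).card = 2 * n := h2
  rw [e0, e1, e2]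
  ring

theorem V₁_upper (n : ℕ) (hn : 1 ≤ n) : V₁ n ≤ 2 * n ^ 3 := by
  have h1 : V₁ n ≤ (diagDrawing n).volume := Nat.sInf_le ⟨_, rfl⟩
  have h2 : (diagDrawing n).volume ≤ (diagContainer n hn).numPts :=
    Nat.sInf_le ⟨_, diag_contained n hn, rfl⟩
  rw [diagContainer_card] at h2
  exact h1.trans h2

theorem V₁_spec (n : ℕ) : ∃ D : OneBendDrawing (⊤ : SimpleGraph (Fin n)), D.volume = V₁ n :=
  Nat.sInf_mem (s := Set.range fun D : OneBendDrawing (⊤ : SimpleGraph (Fin n)) => D.volume)
    ⟨_, diagDrawing n, rfl⟩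

theorem V₁_lower (n : ℕ) : (n : ℝ) ^ 3 / 10 ^ 30 ≤ V₁ n := by
  obtain ⟨D, hD⟩ := V₁_spec n
  rw [← hD]
  rcases le_total (10 ^ 10) n with h | h
  · refine le_trans ?_ (volume_lower h D)
    have : (0 : ℝ) ≤ (n : ℝ) ^ 3 := by positivity
    linarith
  · obtain ⟨C, _, hv⟩ := volume_spec D
    have h1 : (1 : ℝ) ≤ D.volume := by
      rw [hv]; exact_mod_cast C.one_le_numPts
    refine le_trans ?_ h1
    have h2 : (n : ℝ) ≤ 10 ^ 10 := by exact_mod_cast h
    have h3 : (n : ℝ) ^ 3 ≤ (10 ^ 10) ^ 3 := pow_le_pow_left₀ (by positivity) h2 3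
    rw [div_le_one (by positivity)]
    calc (n : ℝ) ^ 3 ≤ (10 ^ 10) ^ 3 := h3
      _ = 10 ^ 30 := by norm_num

end Pool.Agent.H119.OneBend
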