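import Mathlib

/-!
# Counting short one-bend routes in a clique

Static counting lemma used in the lower bound for one-bend orthogonal box-drawings.
-/

namespace Pool.Agent.H119.OneBend

open Finset

/-- Counting by an injective code `(f p, g p)` where `g p` ranges over a window of `N`
integers depending only on `f p`. -/
theorem card_code {α ι : Type*} (P : Finset α) (S : Finset ι) (f : α → ι)
    (g : α → ℤ) (l : ι → ℤ) (N : ℕ) (hf : ∀ p ∈ P, f p ∈ S)
    (hg : ∀ p ∈ P, l (f p) ≤ g p ∧ g p < l (f p) + N)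
    (inj : ∀ p ∈ P, ∀ q ∈ P, f p = f q → g p = g q → p = q) :
    P.card ≤ S.card * N := by
  classical
  have h : P.card ≤ (S ×ˢ Finset.Ico (0 : ℤ) N).card := by
    refine Finset.card_le_card_of_injOn (fun p => (f p, g p - l (f p))) ?_ ?_
    · intro p hp
      have h1 := hf p hp
      have h2 := hg p hp
      simp only [Finset.coe_product, Set.mem_prod, Finset.mem_coe, Finset.mem_Ico]
      exact ⟨h1, by omega, by omega⟩
    · intro p hp q hq hpq
      simp only [Prod.mk.injEq] at hpq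
      refine inj p hp q hq hpq.1 ?_
      have := hpq.2
      rw [hpq.1] at this
      omega
  simpa [Finset.card_product] using h

variable {ι : Type*} [DecidableEq ι]

/-- In a family `S` of boxes with cross-section widths at most `w`, all containing the level
`c`, the number of (oriented) short `HV` routes is at most `12 |S| (3w+1)`. -/
theorem clique_count (S : Finset ι) (w : ℕ)
    (x1 x2 y1 y2 z1 z2 : ι → ℤ)
    (hx : ∀ i ∈ S, x1 i ≤ x2 i ∧ x2 i ≤ x1 i + w)
    (hy : ∀ i ∈ S, y1 i ≤ y2 i ∧ y2 i ≤ y1 i + w)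
    (c : ℤ) (hc : ∀ i ∈ S, z1 i ≤ c ∧ c ≤ z2 i)
    (disj : ∀ i ∈ S, ∀ j ∈ S, ∀ x y z : ℤ,
      x1 i ≤ x ∧ x ≤ x2 i ∧ y1 i ≤ y ∧ y ≤ y2 i ∧ z1 i ≤ z ∧ z ≤ z2 i →
      x1 j ≤ x ∧ x ≤ x2 j ∧ y1 j ≤ y ∧ y ≤ y2 j ∧ z1 j ≤ z ∧ z ≤ z2 j → i = j)
    (P : Finset (ι × ι))
    (hP : ∀ p ∈ P, p.1 ∈ S ∧ p.2 ∈ S ∧ p.1 ≠ p.2)
    (h xA yA xC yC : ι × ι → ℤ)
    (hh : ∀ p ∈ P, z1 p.1 ≤ h p ∧ h p ≤ z2 p.1 ∧ z1 p.2 ≤ h p ∧ h p ≤ z2 p.2)
    (hA : ∀ p ∈ P, x1 p.1 ≤ xA p ∧ xA p ≤ x2 p.1 ∧ y1 p.1 ≤ yA p ∧ yA p ≤ y2 p.1)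
    (hC : ∀ p ∈ P, x1 p.2 ≤ xC p ∧ xC p ≤ x2 p.2 ∧ y1 p.2 ≤ yC p ∧ yC p ≤ y2 p.2)
    (hor : ∀ p ∈ P, ∀ x : ℤ, (xA p ≤ x ∧ x ≤ xC p ∨ xC p ≤ x ∧ x ≤ xA p) →
      ∀ j ∈ S, x1 j ≤ x ∧ x ≤ x2 j ∧ y1 j ≤ yA p ∧ yA p ≤ y2 j ∧ z1 j ≤ h p ∧ h p ≤ z2 j →
        j = p.1 ∨ j = p.2)
    (ver : ∀ p ∈ P, ∀ y : ℤ, (yA p ≤ y ∧ y ≤ yC p ∨ yC p ≤ y ∧ y ≤ yA p) →
      ∀ j ∈ S, x1 j ≤ xC p ∧ xC p ≤ x2 j ∧ y1 j ≤ y ∧ y ≤ y2 j ∧ z1 j ≤ h p ∧ h p ≤ z2 j →
        j = p.1 ∨ j = p.2)
    (short : ∀ p ∈ P, xA p ≤ xC p + w ∧ xC p ≤ xA p + w ∧ yA p ≤ yC p + w ∧ yC p ≤ yA p + w) :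
    P.card ≤ 12 * (S.card * (3 * w + 1)) := by
  classical
  -- the twelve types
  let T : ℕ → ι × ι → Prop := fun t p =>
    match t with
    | 0 => y1 p.2 ≤ y1 p.1 ∧ y1 p.1 ≤ y2 p.2
    | 1 => y1 p.1 ≤ y1 p.2 ∧ y1 p.2 ≤ y2 p.1
    | 2 => x1 p.2 ≤ x1 p.1 ∧ x1 p.1 ≤ x2 p.2
    | 3 => x1 p.1 ≤ x1 p.2 ∧ x1 p.2 ≤ x2 p.1
    | 4 => c ≤ h p ∧ z2 p.1 ≤ z2 p.2 ∧ y2 p.1 < y1 p.2
    | 5 => c ≤ h p ∧ z2 p.1 ≤ z2 p.2 ∧ y2 p.2 < y1 p.1
    | 6 => h p ≤ c ∧ z1 p.2 ≤ z1 p.1 ∧ y2 p.1 < y1 p.2
    | 7 => h p ≤ c ∧ z1 p.2 ≤ z1 p.1 ∧ y2 p.2 < y1 p.1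
    | 8 => c ≤ h p ∧ z2 p.2 ≤ z2 p.1 ∧ x2 p.1 < x1 p.2
    | 9 => c ≤ h p ∧ z2 p.2 ≤ z2 p.1 ∧ x2 p.2 < x1 p.1
    | 10 => h p ≤ c ∧ z1 p.1 ≤ z1 p.2 ∧ x2 p.1 < x1 p.2
    | _ => h p ≤ c ∧ z1 p.1 ≤ z1 p.2 ∧ x2 p.2 < x1 p.1
  have hsub : P ⊆ (Finset.range 12).biUnion (fun t => P.filter (T t)) := by
    intro p hp
    rw [Finset.mem_biUnion]
    obtain ⟨h1, h2, h3⟩ := hP p hp
    have a1 := hx _ h1
    have a2 := hx _ h2
    have a3 := hy _ h1
    have a4 := hy _ h2
    by_cases hY : y1 p.1 ≤ y2 p.2 ∧ y1 p.2 ≤ y2 p.1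
    · rcases le_total (y1 p.2) (y1 p.1) with q | q
      · exact ⟨0, by simp, Finset.mem_filter.2 ⟨hp, q, hY.1⟩⟩
      · exact ⟨1, by simp, Finset.mem_filter.2 ⟨hp, q, hY.2⟩⟩
    by_cases hX : x1 p.1 ≤ x2 p.2 ∧ x1 p.2 ≤ x2 p.1
    · rcases le_total (x1 p.2) (x1 p.1) with q | q
      · exact ⟨2, by simp, Finset.mem_filter.2 ⟨hp, q, hX.1⟩⟩
      · exact ⟨3, by simp, Finset.mem_filter.2 ⟨hp, q, hX.2⟩⟩
    rcases le_total c (h p) with q | q
    · rcases le_total (z2 p.1) (z2 p.2) with q' | q'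
      · by_cases q'' : y2 p.1 < y1 p.2
        · exact ⟨4, by simp, Finset.mem_filter.2 ⟨hp, q, q', q''⟩⟩
        · exact ⟨5, by simp, Finset.mem_filter.2 ⟨hp, q, q', by omega⟩⟩
      · by_cases q'' : x2 p.1 < x1 p.2
        · exact ⟨8, by simp, Finset.mem_filter.2 ⟨hp, q, q', q''⟩⟩
        · exact ⟨9, by simp, Finset.mem_filter.2 ⟨hp, q, q', by omega⟩⟩
    · rcases le_total (z1 p.2) (z1 p.1) with q' | q'
      · by_cases q'' : y2 p.1 < y1 p.2
        · exact ⟨6, by simp, Finset.mem_filter.2 ⟨hp, q, q', q''⟩⟩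
        · exact ⟨7, by simp, Finset.mem_filter.2 ⟨hp, q, q', by omega⟩⟩
      · by_cases q'' : x2 p.1 < x1 p.2
        · exact ⟨10, by simp, Finset.mem_filter.2 ⟨hp, q, q', q''⟩⟩
        · exact ⟨11, by simp, Finset.mem_filter.2 ⟨hp, q, q', by omega⟩⟩
  have key : ∀ t ∈ Finset.range 12, (P.filter (T t)).card ≤ S.card * (3 * w + 1) := by
    intro t ht
    -- base = first component, offset = xC
    have baseI : ∀ (Q : Finset (ι × ι)), Q ⊆ P →
        (∀ p ∈ Q, ∀ q ∈ Q, p.1 = q.1 → xC p = xC q → p.2 = q.2) →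
        Q.card ≤ S.card * (3 * w + 1) := by
      intro Q hQ hinj
      refine card_code Q S (fun p => p.1) xC (fun i => x1 i - w) (3 * w + 1) ?_ ?_ ?_
      · intro p hp; exact (hP p (hQ hp)).1
      · intro p hp
        have a1 := hx _ (hP p (hQ hp)).1
        have a2 := hA p (hQ hp)
        have a3 := short p (hQ hp)
        push_cast
        constructor <;> omega
      · intro p hp q hq e1 e2
        exact Prod.ext e1 (hinj p hp q hq e1 e2)
    have baseI' : ∀ (Q : Finset (ι × ι)), Q ⊆ P →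
        (∀ p ∈ Q, ∀ q ∈ Q, p.1 = q.1 → yC p = yC q → p.2 = q.2) →
        Q.card ≤ S.card * (3 * w + 1) := by
      intro Q hQ hinj
      refine card_code Q S (fun p => p.1) yC (fun i => y1 i - w) (3 * w + 1) ?_ ?_ ?_
      · intro p hp; exact (hP p (hQ hp)).1
      · intro p hp
        have a1 := hy _ (hP p (hQ hp)).1
        have a2 := hA p (hQ hp)
        have a3 := short p (hQ hp)
        push_cast
        constructor <;> omega
      · intro p hp q hq e1 e2
        exact Prod.ext e1 (hinj p hp q hq e1 e2)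
    have baseK : ∀ (Q : Finset (ι × ι)), Q ⊆ P →
        (∀ p ∈ Q, ∀ q ∈ Q, p.2 = q.2 → yA p = yA q → p.1 = q.1) →
        Q.card ≤ S.card * (3 * w + 1) := by
      intro Q hQ hinj
      refine card_code Q S (fun p => p.2) yA (fun i => y1 i - w) (3 * w + 1) ?_ ?_ ?_
      · intro p hp; exact (hP p (hQ hp)).2.1
      · intro p hp
        have a1 := hy _ (hP p (hQ hp)).2.1
        have a2 := hC p (hQ hp)
        have a3 := short p (hQ hp)
        push_cast
        constructor <;> omega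
      · intro p hp q hq e1 e2
        exact Prod.ext (hinj p hp q hq e1 e2) e1
    have baseK' : ∀ (Q : Finset (ι × ι)), Q ⊆ P →
        (∀ p ∈ Q, ∀ q ∈ Q, p.2 = q.2 → xA p = xA q → p.1 = q.1) →
        Q.card ≤ S.card * (3 * w + 1) := by
      intro Q hQ hinj
      refine card_code Q S (fun p => p.2) xA (fun i => x1 i - w) (3 * w + 1) ?_ ?_ ?_
      · intro p hp; exact (hP p (hQ hp)).2.1
      · intro p hp
        have a1 := hx _ (hP p (hQ hp)).2.1
        have a2 := hC p (hQ hp)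
        have a3 := short p (hQ hp)
        push_cast
        constructor <;> omega
      · intro p hp q hq e1 e2
        exact Prod.ext (hinj p hp q hq e1 e2) e1
    have ht' : t < 12 := Finset.mem_range.1 ht
    interval_cases t
    · -- 0 : base i, offset xC, boxes k,k' contain (xC, y1 i, c)
      refine baseI _ (Finset.filter_subset _ _) ?_
      intro p hp q hq e1 e2
      obtain ⟨hp, tp⟩ := Finset.mem_filter.1 hp
      obtain ⟨hq, tq⟩ := Finset.mem_filter.1 hq
      have c1 := hC p hp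
      have c2 := hC q hq
      simp only [T] at tp tq
      rw [e1] at tp
      rw [e2] at c1
      exact disj _ (hP p hp).2.1 _ (hP q hq).2.1 (xC q) (y1 q.1) c
        ⟨c1.1, c1.2.1, tp.1, tp.2, hc _ (hP p hp).2.1⟩
        ⟨c2.1, c2.2.1, tq.1, tq.2, hc _ (hP q hq).2.1⟩
    · refine baseK' _ (Finset.filter_subset _ _) ?_
      intro p hp q hq e1 e2
      obtain ⟨hp, tp⟩ := Finset.mem_filter.1 hp
      obtain ⟨hq, tq⟩ := Finset.mem_filter.1 hq
      have c1 := hA p hp
      have c2 := hA q hq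
      simp only [T] at tp tq
      rw [e1] at tp
      rw [e2] at c1
      exact disj _ (hP p hp).1 _ (hP q hq).1 (xA q) (y1 q.2) c
        ⟨c1.1, c1.2.1, tp.1, tp.2, hc _ (hP p hp).1⟩
        ⟨c2.1, c2.2.1, tq.1, tq.2, hc _ (hP q hq).1⟩
    · refine baseI' _ (Finset.filter_subset _ _) ?_
      intro p hp q hq e1 e2
      obtain ⟨hp, tp⟩ := Finset.mem_filter.1 hp
      obtain ⟨hq, tq⟩ := Finset.mem_filter.1 hq
      have c1 := hC p hp
      have c2 := hC q hq
      simp only [T] at tp tq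
      rw [e1] at tp
      rw [e2] at c1
      exact disj _ (hP p hp).2.1 _ (hP q hq).2.1 (x1 q.1) (yC q) c
        ⟨tp.1, tp.2, c1.2.2.1, c1.2.2.2, hc _ (hP p hp).2.1⟩
        ⟨tq.1, tq.2, c2.2.2.1, c2.2.2.2, hc _ (hP q hq).2.1⟩
    · refine baseK _ (Finset.filter_subset _ _) ?_
      intro p hp q hq e1 e2
      obtain ⟨hp, tp⟩ := Finset.mem_filter.1 hp
      obtain ⟨hq, tq⟩ := Finset.mem_filter.1 hq
      have c1 := hA p hp
      have c2 := hA q hq
      simp only [T] at tp tq
      rw [e1] at tp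
      rw [e2] at c1
      exact disj _ (hP p hp).1 _ (hP q hq).1 (x1 q.2) (yA q) c
        ⟨tp.1, tp.2, c1.2.2.1, c1.2.2.2, hc _ (hP p hp).1⟩
        ⟨tq.1, tq.2, c2.2.2.1, c2.2.2.2, hc _ (hP q hq).1⟩
    · -- 4
      refine baseI _ (Finset.filter_subset _ _) ?_
      have main : ∀ p ∈ P.filter (T 4), ∀ q ∈ P.filter (T 4), p.1 = q.1 → xC p = xC q →
          y1 p.2 ≤ y1 q.2 → p.2 = q.2 := by
        intro p hp q hq e1 e2 hle
        obtain ⟨hp, tp⟩ := Finset.mem_filter.1 hp
        obtain ⟨hq, tq⟩ := Finset.mem_filter.1 hq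
        simp only [T] at tp tq
        rw [e1] at tp
        have c1 := hC p hp
        have c2 := hC q hq
        have c3 := hA q hq
        have c4 := hh q hq
        have c5 := hy _ (hP p hp).2.1
        have c6 := hc _ (hP p hp).2.1
        have := ver q hq (y1 p.2) (Or.inl ⟨by omega, by omega⟩) p.2 (hP p hp).2.1
          ⟨by omega, by omega, le_refl _, c5.1, by omega, by omega⟩
        rcases this with h7 | h7
        · exact absurd (h7.trans e1.symm) (hP p hp).2.2.symm
        · exact h7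
      intro p hp q hq e1 e2
      rcases le_total (y1 p.2) (y1 q.2) with h7 | h7
      · exact main p hp q hq e1 e2 h7
      · exact (main q hq p hp e1.symm e2.symm h7).symm
    · -- 5
      refine baseI _ (Finset.filter_subset _ _) ?_
      have main : ∀ p ∈ P.filter (T 5), ∀ q ∈ P.filter (T 5), p.1 = q.1 → xC p = xC q →
          y2 q.2 ≤ y2 p.2 → p.2 = q.2 := by
        intro p hp q hq e1 e2 hle
        obtain ⟨hp, tp⟩ := Finset.mem_filter.1 hp
        obtain ⟨hq, tq⟩ := Finset.mem_filter.1 hq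
        simp only [T] at tp tq
        rw [e1] at tp
        have c1 := hC p hp
        have c2 := hC q hq
        have c3 := hA q hq
        have c4 := hh q hq
        have c5 := hy _ (hP p hp).2.1
        have c6 := hc _ (hP p hp).2.1
        have := ver q hq (y2 p.2) (Or.inr ⟨by omega, by omega⟩) p.2 (hP p hp).2.1
          ⟨by omega, by omega, c5.1, le_refl _, by omega, by omega⟩
        rcases this with h7 | h7
        · exact absurd (h7.trans e1.symm) (hP p hp).2.2.symm
        · exact h7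
      intro p hp q hq e1 e2
      rcases le_total (y2 q.2) (y2 p.2) with h7 | h7
      · exact main p hp q hq e1 e2 h7
      · exact (main q hq p hp e1.symm e2.symm h7).symm
    · -- 6
      refine baseI _ (Finset.filter_subset _ _) ?_
      have main : ∀ p ∈ P.filter (T 6), ∀ q ∈ P.filter (T 6), p.1 = q.1 → xC p = xC q →
          y1 p.2 ≤ y1 q.2 → p.2 = q.2 := by
        intro p hp q hq e1 e2 hle
        obtain ⟨hp, tp⟩ := Finset.mem_filter.1 hp
        obtain ⟨hq, tq⟩ := Finset.mem_filter.1 hq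
        simp only [T] at tp tq
        rw [e1] at tp
        have c1 := hC p hp
        have c2 := hC q hq
        have c3 := hA q hq
        have c4 := hh q hq
        have c5 := hy _ (hP p hp).2.1
        have c6 := hc _ (hP p hp).2.1
        have := ver q hq (y1 p.2) (Or.inl ⟨by omega, by omega⟩) p.2 (hP p hp).2.1
          ⟨by omega, by omega, le_refl _, c5.1, by omega, by omega⟩
        rcases this with h7 | h7
        · exact absurd (h7.trans e1.symm) (hP p hp).2.2.symm
        · exact h7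
      intro p hp q hq e1 e2
      rcases le_total (y1 p.2) (y1 q.2) with h7 | h7
      · exact main p hp q hq e1 e2 h7
      · exact (main q hq p hp e1.symm e2.symm h7).symm
    · -- 7
      refine baseI _ (Finset.filter_subset _ _) ?_
      have main : ∀ p ∈ P.filter (T 7), ∀ q ∈ P.filter (T 7), p.1 = q.1 → xC p = xC q →
          y2 q.2 ≤ y2 p.2 → p.2 = q.2 := by
        intro p hp q hq e1 e2 hle
        obtain ⟨hp, tp⟩ := Finset.mem_filter.1 hp
        obtain ⟨hq, tq⟩ := Finset.mem_filter.1 hq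
        simp only [T] at tp tq
        rw [e1] at tp
        have c1 := hC p hp
        have c2 := hC q hq
        have c3 := hA q hq
        have c4 := hh q hq
        have c5 := hy _ (hP p hp).2.1
        have c6 := hc _ (hP p hp).2.1
        have := ver q hq (y2 p.2) (Or.inr ⟨by omega, by omega⟩) p.2 (hP p hp).2.1
          ⟨by omega, by omega, c5.1, le_refl _, by omega, by omega⟩
        rcases this with h7 | h7
        · exact absurd (h7.trans e1.symm) (hP p hp).2.2.symm
        · exact h7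
      intro p hp q hq e1 e2
      rcases le_total (y2 q.2) (y2 p.2) with h7 | h7
      · exact main p hp q hq e1 e2 h7
      · exact (main q hq p hp e1.symm e2.symm h7).symm
    · -- 8
      refine baseK _ (Finset.filter_subset _ _) ?_
      have main : ∀ p ∈ P.filter (T 8), ∀ q ∈ P.filter (T 8), p.2 = q.2 → yA p = yA q →
          x2 q.1 ≤ x2 p.1 → p.1 = q.1 := by
        intro p hp q hq e1 e2 hle
        obtain ⟨hp, tp⟩ := Finset.mem_filter.1 hp
        obtain ⟨hq, tq⟩ := Finset.mem_filter.1 hq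
        simp only [T] at tp tq
        rw [e1] at tp
        have c1 := hA p hp
        have c2 := hA q hq
        have c3 := hC q hq
        have c4 := hh q hq
        have c5 := hx _ (hP p hp).1
        have c6 := hc _ (hP p hp).1
        have := hor q hq (x2 p.1) (Or.inl ⟨by omega, by omega⟩) p.1 (hP p hp).1
          ⟨c5.1, le_refl _, by omega, by omega, by omega, by omega⟩
        rcases this with h7 | h7
        · exact h7
        · exact absurd (h7.trans e1.symm) (hP p hp).2.2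
      intro p hp q hq e1 e2
      rcases le_total (x2 q.1) (x2 p.1) with h7 | h7
      · exact main p hp q hq e1 e2 h7
      · exact (main q hq p hp e1.symm e2.symm h7).symm
    · -- 9
      refine baseK _ (Finset.filter_subset _ _) ?_
      have main : ∀ p ∈ P.filter (T 9), ∀ q ∈ P.filter (T 9), p.2 = q.2 → yA p = yA q →
          x1 p.1 ≤ x1 q.1 → p.1 = q.1 := by
        intro p hp q hq e1 e2 hle
        obtain ⟨hp, tp⟩ := Finset.mem_filter.1 hp
        obtain ⟨hq, tq⟩ := Finset.mem_filter.1 hq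
        simp only [T] at tp tq
        rw [e1] at tp
        have c1 := hA p hp
        have c2 := hA q hq
        have c3 := hC q hq
        have c4 := hh q hq
        have c5 := hx _ (hP p hp).1
        have c6 := hc _ (hP p hp).1
        have := hor q hq (x1 p.1) (Or.inr ⟨by omega, by omega⟩) p.1 (hP p hp).1
          ⟨le_refl _, c5.1, by omega, by omega, by omega, by omega⟩
        rcases this with h7 | h7
        · exact h7
        · exact absurd (h7.trans e1.symm) (hP p hp).2.2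
      intro p hp q hq e1 e2
      rcases le_total (x1 p.1) (x1 q.1) with h7 | h7
      · exact main p hp q hq e1 e2 h7
      · exact (main q hq p hp e1.symm e2.symm h7).symm
    · -- 10
      refine baseK _ (Finset.filter_subset _ _) ?_
      have main : ∀ p ∈ P.filter (T 10), ∀ q ∈ P.filter (T 10), p.2 = q.2 → yA p = yA q →
          x2 q.1 ≤ x2 p.1 → p.1 = q.1 := by
        intro p hp q hq e1 e2 hle
        obtain ⟨hp, tp⟩ := Finset.mem_filter.1 hp
        obtain ⟨hq, tq⟩ := Finset.mem_filter.1 hq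
        simp only [T] at tp tq
        rw [e1] at tp
        have c1 := hA p hp
        have c2 := hA q hq
        have c3 := hC q hq
        have c4 := hh q hq
        have c5 := hx _ (hP p hp).1
        have c6 := hc _ (hP p hp).1
        have := hor q hq (x2 p.1) (Or.inl ⟨by omega, by omega⟩) p.1 (hP p hp).1
          ⟨c5.1, le_refl _, by omega, by omega, by omega, by omega⟩
        rcases this with h7 | h7
        · exact h7
        · exact absurd (h7.trans e1.symm) (hP p hp).2.2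
      intro p hp q hq e1 e2
      rcases le_total (x2 q.1) (x2 p.1) with h7 | h7
      · exact main p hp q hq e1 e2 h7
      · exact (main q hq p hp e1.symm e2.symm h7).symm
    · -- 11
      refine baseK _ (Finset.filter_subset _ _) ?_
      have main : ∀ p ∈ P.filter (T 11), ∀ q ∈ P.filter (T 11), p.2 = q.2 → yA p = yA q →
          x1 p.1 ≤ x1 q.1 → p.1 = q.1 := by
        intro p hp q hq e1 e2 hle
        obtain ⟨hp, tp⟩ := Finset.mem_filter.1 hp
        obtain ⟨hq, tq⟩ := Finset.mem_filter.1 hq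
        simp only [T] at tp tq
        rw [e1] at tp
        have c1 := hA p hp
        have c2 := hA q hq
        have c3 := hC q hq
        have c4 := hh q hq
        have c5 := hx _ (hP p hp).1
        have c6 := hc _ (hP p hp).1
        have := hor q hq (x1 p.1) (Or.inr ⟨by omega, by omega⟩) p.1 (hP p hp).1
          ⟨le_refl _, c5.1, by omega, by omega, by omega, by omega⟩
        rcases this with h7 | h7
        · exact h7
        · exact absurd (h7.trans e1.symm) (hP p hp).2.2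
      intro p hp q hq e1 e2
      rcases le_total (x1 p.1) (x1 q.1) with h7 | h7
      · exact main p hp q hq e1 e2 h7
      · exact (main q hq p hp e1.symm e2.symm h7).symm
  calc P.card ≤ ((Finset.range 12).biUnion (fun t => P.filter (T t))).card :=
        Finset.card_le_card hsub
    _ ≤ (Finset.range 12).card * (S.card * (3 * w + 1)) :=
        Finset.card_biUnion_le_card_mul _ _ _ key
    _ = 12 * (S.card * (3 * w + 1)) := by simp

end Pool.Agent.H119.OneBend
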