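import Pool.Agent.H119.OneBend.LemmaA

/-!
# Counting one-bend routes when all boxes are long in one in-plane direction
-/

namespace Pool.Agent.H119.OneBend

open Finset

/-- Two brackets hanging on the same anchor line with interleaved ends cross. -/
theorem cross_same (α xb1 xb2 ra1 rc1 rb2 rd2 : ℤ) (G1 G2 Bb Bc : ℤ → ℤ → Prop)
    (side : (α < xb1 ∧ α < xb2) ∨ (xb1 < α ∧ xb2 < α))
    (o1 : ra1 < rb2) (o2 : rb2 < rc1) (o3 : rc1 < rd2)
    (v1 : ∀ y, ra1 ≤ y → y ≤ rc1 → G1 xb1 y)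
    (v2 : ∀ y, rb2 ≤ y → y ≤ rd2 → G2 xb2 y)
    (hb : ∀ x, (α ≤ x ∧ x ≤ xb2 ∨ xb2 ≤ x ∧ x ≤ α) → Bb x rb2 ∨ G2 x rb2)
    (hc : ∀ x, (α ≤ x ∧ x ≤ xb1 ∨ xb1 ≤ x ∧ x ≤ α) → Bc x rc1 ∨ G1 x rc1)
    (d12 : ∀ x y, G1 x y → G2 x y → False)
    (d1b : ∀ x y, G1 x y → Bb x y → False)
    (d2c : ∀ x y, G2 x y → Bc x y → False) : False := by
  rcases side with ⟨s1, s2⟩ | ⟨s1, s2⟩
  · rcases le_total xb1 xb2 with q | q
    · have h1 := v1 rb2 (by omega) (by omega)
      rcases hb xb1 (Or.inl ⟨by omega, q⟩) with h2 | h2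
      · exact d1b _ _ h1 h2
      · exact d12 _ _ h1 h2
    · have h1 := v2 rc1 (by omega) (by omega)
      rcases hc xb2 (Or.inl ⟨by omega, q⟩) with h2 | h2
      · exact d2c _ _ h1 h2
      · exact d12 _ _ h2 h1
  · rcases le_total xb1 xb2 with q | q
    · have h1 := v2 rc1 (by omega) (by omega)
      rcases hc xb2 (Or.inr ⟨q, by omega⟩) with h2 | h2
      · exact d2c _ _ h1 h2
      · exact d12 _ _ h2 h1
    · have h1 := v1 rb2 (by omega) (by omega)
      rcases hb xb1 (Or.inr ⟨q, by omega⟩) with h2 | h2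
      · exact d1b _ _ h1 h2
      · exact d12 _ _ h1 h2

/-- Two left-right connections with inverted ends cross. -/
theorem cross_lr (α β xb1 xb2 r1l r1r r2l r2r : ℤ) (G1 G2 Bl1 Bl2 Br1 Br2 : ℤ → ℤ → Prop)
    (a1 : α ≤ xb1) (a2 : α ≤ xb2) (b1 : xb1 ≤ β) (b2 : xb2 ≤ β)
    (ol : r1l < r2l) (or : r2r < r1r)
    (v1 : ∀ y, (r1l ≤ y ∧ y ≤ r1r ∨ r1r ≤ y ∧ y ≤ r1l) → G1 xb1 y)
    (v2 : ∀ y, (r2l ≤ y ∧ y ≤ r2r ∨ r2r ≤ y ∧ y ≤ r2l) → G2 xb2 y)
    (l1 : ∀ x, α ≤ x → x ≤ xb1 → Bl1 x r1l ∨ G1 x r1l)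
    (l2 : ∀ x, α ≤ x → x ≤ xb2 → Bl2 x r2l ∨ G2 x r2l)
    (rr1 : ∀ x, xb1 ≤ x → x ≤ β → Br1 x r1r ∨ G1 x r1r)
    (rr2 : ∀ x, xb2 ≤ x → x ≤ β → Br2 x r2r ∨ G2 x r2r)
    (d12 : ∀ x y, G1 x y → G2 x y → False)
    (d1l : ∀ x y, G1 x y → Bl2 x y → False)
    (d1r : ∀ x y, G1 x y → Br2 x y → False)
    (d2l : ∀ x y, G2 x y → Bl1 x y → False)
    (d2r : ∀ x y, G2 x y → Br1 x y → False) : False := by
  rcases le_total xb1 xb2 with q | q
  · have h1 : ¬ G1 xb1 r2l := by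
      intro h
      rcases l2 xb1 a1 q with h2 | h2
      · exact d1l _ _ h h2
      · exact d12 _ _ h h2
    have h2 : r1r < r2l := by
      by_contra hcon
      exact h1 (v1 _ (Or.inl ⟨by omega, by omega⟩))
    have h3 : ¬ G2 xb2 r1r := by
      intro h
      rcases rr1 xb2 q b2 with h2 | h2
      · exact d2r _ _ h h2
      · exact d12 _ _ h2 h
    exact h3 (v2 _ (Or.inr ⟨by omega, by omega⟩))
  · have h1 : ¬ G2 xb2 r1l := by
      intro h
      rcases l1 xb2 a2 q with h2 | h2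
      · exact d2l _ _ h h2
      · exact d12 _ _ h2 h
    have h2 : r1l < r2r := by
      by_contra hcon
      exact h1 (v2 _ (Or.inr ⟨by omega, by omega⟩))
    have h3 : ¬ G1 xb1 r2r := by
      intro h
      rcases rr2 xb1 q b1 with h2 | h2
      · exact d1r _ _ h h2
      · exact d12 _ _ h h2
    exact h3 (v1 _ (Or.inl ⟨by omega, by omega⟩))

/-- Averaging over shifts. -/
theorem exists_shift {α : Type*} [DecidableEq α] (P : Finset α) (G : α → Finset (ℤ × ℤ × ℤ))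
    (g V : ℕ) (hg : 0 < g) (hV : ∑ p ∈ P, (G p).card ≤ V) :
    ∃ s ∈ Finset.range g,
      g * (P.filter (fun p => ∃ q ∈ G p, q.1 % (g : ℤ) = s)).card ≤ V := by
  classical
  by_contra hcon
  push Not at hcon
  have h1 : ∑ s ∈ Finset.range g,
      (P.filter (fun p => ∃ q ∈ G p, q.1 % (g : ℤ) = (s : ℤ))).card ≤ V := by
    refine le_trans ?_ hV
    simp only [Finset.card_filter]
    rw [Finset.sum_comm]
    refine Finset.sum_le_sum fun p _ => ?_
    rw [← Finset.card_filter]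
    have : ((Finset.range g).filter (fun s : ℕ => ∃ q ∈ G p, q.1 % (g : ℤ) = (s : ℤ))) ⊆
        (G p).image (fun q => (q.1 % (g : ℤ)).toNat) := by
      intro s hs
      obtain ⟨_, q, hq, e⟩ := Finset.mem_filter.1 hs
      rw [Finset.mem_image]
      exact ⟨q, hq, by rw [e]; simp⟩
    exact (Finset.card_le_card this).trans Finset.card_image_le
  have h2 : ∑ s ∈ Finset.range g, V <
      ∑ s ∈ Finset.range g, g * (P.filter (fun p => ∃ q ∈ G p, q.1 % (g : ℤ) = (s : ℤ))).card := by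
    refine Finset.sum_lt_sum_of_nonempty ⟨0, Finset.mem_range.2 hg⟩ fun s hs => hcon s hs
  rw [← Finset.mul_sum] at h2
  simp only [Finset.sum_const, Finset.card_range, smul_eq_mul] at h2
  have := Nat.mul_le_mul_left g h1
  omega

variable {ι : Type*} [DecidableEq ι]

theorem long_count (S : Finset ι) (g V : ℕ) (hg : 0 < g)
    (x1 x2 y1 y2 z1 z2 : ι → ℤ)
    (hx : ∀ i ∈ S, x1 i + g ≤ x2 i)
    (hy : ∀ i ∈ S, y1 i ≤ y2 i) (hz : ∀ i ∈ S, z1 i ≤ z2 i)
    (disj : ∀ i ∈ S, ∀ j ∈ S, ∀ x y z : ℤ,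
      x1 i ≤ x ∧ x ≤ x2 i ∧ y1 i ≤ y ∧ y ≤ y2 i ∧ z1 i ≤ z ∧ z ≤ z2 i →
      x1 j ≤ x ∧ x ≤ x2 j ∧ y1 j ≤ y ∧ y ≤ y2 j ∧ z1 j ≤ z ∧ z ≤ z2 j → i = j)
    (P : Finset (ι × ι))
    (hP : ∀ p ∈ P, p.1 ∈ S ∧ p.2 ∈ S ∧ p.1 ≠ p.2)
    (hPs : ∀ p ∈ P, p.swap ∈ P)
    (h xb : ι → ι → ℤ) (hhs : ∀ i k, h i k = h k i) (hxs : ∀ i k, xb i k = xb k i)
    (e r : ι → ι → ℤ)
    (G : ι → ι → Finset (ℤ × ℤ × ℤ)) (hGs : ∀ i k, G i k = G k i)
    (hE : ∀ p ∈ P, x1 p.1 ≤ e p.1 p.2 ∧ e p.1 p.2 ≤ x2 p.1 ∧ y1 p.1 ≤ r p.1 p.2 ∧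
      r p.1 p.2 ≤ y2 p.1 ∧ z1 p.1 ≤ h p.1 p.2 ∧ h p.1 p.2 ≤ z2 p.1)
    (hor : ∀ p ∈ P, ∀ x : ℤ, (e p.1 p.2 ≤ x ∧ x ≤ xb p.1 p.2 ∨ xb p.1 p.2 ≤ x ∧ x ≤ e p.1 p.2) →
      (x, r p.1 p.2, h p.1 p.2) ∈ G p.1 p.2)
    (ver : ∀ p ∈ P, ∀ y : ℤ, (r p.1 p.2 ≤ y ∧ y ≤ r p.2 p.1 ∨ r p.2 p.1 ≤ y ∧ y ≤ r p.1 p.2) →
      (xb p.1 p.2, y, h p.1 p.2) ∈ G p.1 p.2)
    (avoid : ∀ p ∈ P, ∀ x y z : ℤ, (x, y, z) ∈ G p.1 p.2 → ∀ j ∈ S,
      x1 j ≤ x ∧ x ≤ x2 j ∧ y1 j ≤ y ∧ y ≤ y2 j ∧ z1 j ≤ z ∧ z ≤ z2 j → j = p.1 ∨ j = p.2)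
    (rdisj : ∀ p ∈ P, ∀ q ∈ P, ∀ x y z : ℤ, (x, y, z) ∈ G p.1 p.2 → (x, y, z) ∈ G q.1 q.2 →
      (p.1 = q.1 ∧ p.2 = q.2) ∨ (p.1 = q.2 ∧ p.2 = q.1))
    (hV1 : ∑ p ∈ P, (G p.1 p.2).card ≤ 2 * V)
    (hV2 : ∑ j ∈ S, ((x2 j - x1 j + 1) * (z2 j - z1 j + 1)) ≤ (V : ℤ)) :
    g * P.card ≤ 38 * V := by
  classical
  obtain ⟨s, hsr, hs⟩ := exists_shift P (fun p => G p.1 p.2) g (2 * V) hg hV1
  have hg' : (0 : ℤ) < g := by exact_mod_cast hg
  -- the crossing part and the rest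
  set C := P.filter (fun p => ∃ q ∈ G p.1 p.2, q.1 % (g : ℤ) = s) with hC
  set P' := P.filter (fun p => ¬ ∃ q ∈ G p.1 p.2, q.1 % (g : ℤ) = s) with hP'
  have hsum : C.card + P'.card = P.card := Finset.card_filter_add_card_filter_not _
  have hsg : (s : ℤ) < g := by
    have := Finset.mem_range.1 hsr
    exact_mod_cast this
  -- strip index
  let T : ι × ι → ℤ := fun p => (xb p.1 p.2 - s) / g
  have memP : ∀ p ∈ P', p ∈ P := fun p hp => (Finset.mem_filter.1 hp).1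
  have nocross : ∀ p ∈ P', ∀ x y z, (x, y, z) ∈ G p.1 p.2 → ∀ t : ℤ, x ≠ s + g * t := by
    intro p hp x y z hm t ht
    refine (Finset.mem_filter.1 hp).2 ⟨(x, y, z), hm, ?_⟩
    show x % (g : ℤ) = s
    rw [ht, Int.add_mul_emod_self_left]
    exact Int.emod_eq_of_lt (by positivity) hsg
  have swapP' : ∀ p ∈ P', p.swap ∈ P' := by
    intro p hp
    obtain ⟨h1, h2⟩ := Finset.mem_filter.1 hp
    refine Finset.mem_filter.2 ⟨hPs p h1, ?_⟩
    simpa [hGs p.2 p.1] using h2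
  have Tswap : ∀ p : ι × ι, T p.swap = T p := by
    intro p; simp only [T, Prod.fst_swap, Prod.snd_swap, hxs p.2 p.1]
  -- the route stays in the open strip
  have strip : ∀ p ∈ P', s + g * T p < xb p.1 p.2 ∧ xb p.1 p.2 < s + g * (T p + 1) ∧
      s + g * T p < e p.1 p.2 ∧ e p.1 p.2 < s + g * (T p + 1) := by
    intro p hp
    have hpP := memP p hp
    have m1 : (g : ℤ) * T p ≤ xb p.1 p.2 - s := Int.mul_ediv_self_le (ne_of_gt hg')
    have m2 : xb p.1 p.2 - s < (g : ℤ) * T p + g := by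
      have := Int.lt_mul_ediv_self_add (x := xb p.1 p.2 - s) hg'
      exact this
    have n1 : xb p.1 p.2 ≠ s + g * T p := by
      refine nocross p hp _ _ _ (ver p hpP (r p.1 p.2) ?_) _
      rcases le_total (r p.1 p.2) (r p.2 p.1) with q | q
      · exact Or.inl ⟨le_refl _, q⟩
      · exact Or.inr ⟨q, le_refl _⟩
    have m3 : (g : ℤ) * (T p + 1) = g * T p + g := by ring
    refine ⟨by omega, by omega, ?_, ?_⟩
    · by_contra hcon
      exact nocross p hp _ _ _ (hor p hpP (s + g * T p) (Or.inl ⟨by omega, by omega⟩)) (T p) rfl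
    · by_contra hcon
      exact nocross p hp _ _ _ (hor p hpP (s + g * (T p + 1)) (Or.inr ⟨by omega, by omega⟩))
        (T p + 1) rfl
  let L : ι × ι → Prop := fun p => x1 p.1 ≤ s + g * T p
  let R : ι × ι → Prop := fun p => s + g * (T p + 1) ≤ x2 p.1
  have LX : ∀ p ∈ P', L p → x1 p.1 ≤ s + g * T p ∧ s + g * T p ≤ x2 p.1 := by
    intro p hp hL
    have h1 := strip p hp
    have h2 := hE p (memP p hp)
    exact ⟨hL, by omega⟩
  have RX : ∀ p ∈ P', R p → x1 p.1 ≤ s + g * (T p + 1) ∧ s + g * (T p + 1) ≤ x2 p.1 := by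
    intro p hp hR
    have h1 := strip p hp
    have h2 := hE p (memP p hp)
    exact ⟨by omega, hR⟩
  have LorR : ∀ p ∈ P', ¬ L p → R p := by
    intro p hp hL
    have h1 := strip p hp
    have h2 := hE p (memP p hp)
    have h3 := hx _ (hP p (memP p hp)).1
    simp only [L, R] at hL ⊢
    have m3 : (g : ℤ) * (T p + 1) = g * T p + g := by ring
    omega
  -- connection to an anchor
  have conn : ∀ p ∈ P', ∀ α : ℤ, x1 p.1 ≤ α → α ≤ x2 p.1 → ∀ x : ℤ,
      (α ≤ x ∧ x ≤ xb p.1 p.2 ∨ xb p.1 p.2 ≤ x ∧ x ≤ α) →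
      (x1 p.1 ≤ x ∧ x ≤ x2 p.1 ∧ y1 p.1 ≤ r p.1 p.2 ∧ r p.1 p.2 ≤ y2 p.1 ∧
        z1 p.1 ≤ h p.1 p.2 ∧ h p.1 p.2 ≤ z2 p.1) ∨ (x, r p.1 p.2, h p.1 p.2) ∈ G p.1 p.2 := by
    intro p hp α ha1 ha2 x hxx
    have h2 := hE p (memP p hp)
    by_cases hc : (e p.1 p.2 ≤ x ∧ x ≤ xb p.1 p.2 ∨ xb p.1 p.2 ≤ x ∧ x ≤ e p.1 p.2)
    · exact Or.inr (hor p (memP p hp) x hc)
    · left
      refine ⟨by omega, by omega, h2.2.2.1, h2.2.2.2.1, h2.2.2.2.2.1, h2.2.2.2.2.2⟩
  -- boxes on a common vertical line and level are vertically ordered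
  have yord : ∀ i ∈ S, ∀ j ∈ S, ∀ α z : ℤ, x1 i ≤ α → α ≤ x2 i → z1 i ≤ z → z ≤ z2 i →
      x1 j ≤ α → α ≤ x2 j → z1 j ≤ z → z ≤ z2 j → y1 i < y1 j → y2 i < y1 j := by
    intro i hi j hj α z a1 a2 a3 a4 a5 a6 a7 a8 a9
    by_contra hcon
    have := disj i hi j hj α (y1 j) z ⟨a1, a2, by omega, by omega, a3, a4⟩
      ⟨a5, a6, le_refl _, hy j hj, a7, a8⟩
    rw [this] at a9
    exact lt_irrefl _ a9
  have yeq : ∀ i ∈ S, ∀ j ∈ S, ∀ α z : ℤ, x1 i ≤ α → α ≤ x2 i → z1 i ≤ z → z ≤ z2 i →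
      x1 j ≤ α → α ≤ x2 j → z1 j ≤ z → z ≤ z2 j → y1 i = y1 j → i = j := by
    intro i hi j hj α z a1 a2 a3 a4 a5 a6 a7 a8 a9
    exact disj i hi j hj α (y1 j) z ⟨a1, a2, by omega, by have := hy i hi; omega, a3, a4⟩
      ⟨a5, a6, le_refl _, hy j hj, a7, a8⟩
  -- crossing lemma on a common anchor
  have same_false : ∀ α : ℤ, ∀ q2 ∈ P', ∀ q1 ∈ P', h q2.1 q2.2 = h q1.1 q1.2 →
      (x1 q2.1 ≤ α ∧ α ≤ x2 q2.1) → (x1 q2.2 ≤ α ∧ α ≤ x2 q2.2) →
      (x1 q1.1 ≤ α ∧ α ≤ x2 q1.1) → (x1 q1.2 ≤ α ∧ α ≤ x2 q1.2) →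
      ((α < xb q2.1 q2.2 ∧ α < xb q1.1 q1.2) ∨ (xb q2.1 q2.2 < α ∧ xb q1.1 q1.2 < α)) →
      y1 q2.1 < y1 q1.1 → y1 q1.1 < y1 q2.2 → y1 q2.2 < y1 q1.2 → False := by
    intro α q2 hq2 q1 hq1 hh xa xc xbb xd side o1 o2 o3
    have Ea := hE q2 (memP _ hq2)
    have Ec := hE q2.swap (memP _ (swapP' _ hq2))
    have Eb := hE q1 (memP _ hq1)
    have Ed := hE q1.swap (memP _ (swapP' _ hq1))
    simp only [Prod.fst_swap, Prod.snd_swap] at Ec Ed
    rw [hhs q2.2 q2.1] at Ec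
    rw [hhs q1.2 q1.1] at Ed
    have Sa := (hP q2 (memP _ hq2)).1
    have Sc := (hP q2 (memP _ hq2)).2.1
    have Sb := (hP q1 (memP _ hq1)).1
    have Sd := (hP q1 (memP _ hq1)).2.1
    have p1 := yord _ Sa _ Sb α (h q1.1 q1.2) xa.1 xa.2 (by omega) (by omega) xbb.1 xbb.2
      (by omega) (by omega) o1
    have p2 := yord _ Sb _ Sc α (h q1.1 q1.2) xbb.1 xbb.2 (by omega) (by omega) xc.1 xc.2
      (by omega) (by omega) o2
    have p3 := yord _ Sc _ Sd α (h q1.1 q1.2) xc.1 xc.2 (by omega) (by omega) xd.1 xd.2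
      (by omega) (by omega) o3
    refine cross_same α (xb q2.1 q2.2) (xb q1.1 q1.2) (r q2.1 q2.2) (r q2.2 q2.1)
      (r q1.1 q1.2) (r q1.2 q1.1)
      (fun x y => (x, y, h q1.1 q1.2) ∈ G q2.1 q2.2) (fun x y => (x, y, h q1.1 q1.2) ∈ G q1.1 q1.2)
      (fun x y => x1 q1.1 ≤ x ∧ x ≤ x2 q1.1 ∧ y1 q1.1 ≤ y ∧ y ≤ y2 q1.1 ∧
        z1 q1.1 ≤ h q1.1 q1.2 ∧ h q1.1 q1.2 ≤ z2 q1.1)
      (fun x y => x1 q2.2 ≤ x ∧ x ≤ x2 q2.2 ∧ y1 q2.2 ≤ y ∧ y ≤ y2 q2.2 ∧
        z1 q2.2 ≤ h q1.1 q1.2 ∧ h q1.1 q1.2 ≤ z2 q2.2)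
      side (by omega) (by omega) (by omega) ?_ ?_ ?_ ?_ ?_ ?_ ?_
    · intro y h1 h2
      have := ver q2 (memP _ hq2) y (Or.inl ⟨h1, h2⟩)
      rwa [hh] at this
    · intro y h1 h2
      exact ver q1 (memP _ hq1) y (Or.inl ⟨h1, h2⟩)
    · intro x hxx
      exact conn q1 hq1 α xbb.1 xbb.2 x hxx
    · intro x hxx
      have := conn q2.swap (swapP' _ hq2) α xc.1 xc.2 x (by
        simp only [Prod.fst_swap, Prod.snd_swap]; rw [hxs q2.2 q2.1]; exact hxx)
      simp only [Prod.fst_swap, Prod.snd_swap] at this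
      rw [hhs q2.2 q2.1, hGs q2.2 q2.1, hh] at this
      exact this
    · intro x y g1 g2
      rcases rdisj q2 (memP _ hq2) q1 (memP _ hq1) x y _ g1 g2 with ⟨u1, u2⟩ | ⟨u1, u2⟩
      · rw [u1] at o1; exact lt_irrefl _ o1
      · rw [u1] at o1; omega
    · intro x y g1 g2
      rcases avoid q2 (memP _ hq2) x y _ g1 q1.1 Sb g2 with u1 | u1
      · rw [u1] at o1; exact lt_irrefl _ o1
      · rw [u1] at o2; exact lt_irrefl _ o2
    · intro x y g1 g2
      rcases avoid q1 (memP _ hq1) x y _ g1 q2.2 Sc g2 with u1 | u1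
      · rw [u1] at o2; exact lt_irrefl _ o2
      · rw [u1] at o3; exact lt_irrefl _ o3
  -- crossing lemma for left-right routes
  have lr_false : ∀ q1 ∈ P', ∀ q2 ∈ P', h q1.1 q1.2 = h q2.1 q2.2 → T q1 = T q2 →
      L q1 → ¬ R q1 → R q1.swap → ¬ L q1.swap →
      L q2 → ¬ R q2 → R q2.swap → ¬ L q2.swap →
      y1 q1.1 < y1 q2.1 → y1 q2.2 < y1 q1.2 → False := by
    intro q1 hq1 q2 hq2 hh hT L1 R1 R1s L1s L2 R2 R2s L2s o1 o2
    have E1 := hE q1 (memP _ hq1)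
    have E1s := hE q1.swap (memP _ (swapP' _ hq1))
    have E2 := hE q2 (memP _ hq2)
    have E2s := hE q2.swap (memP _ (swapP' _ hq2))
    simp only [Prod.fst_swap, Prod.snd_swap] at E1s E2s
    rw [hhs q1.2 q1.1] at E1s
    rw [hhs q2.2 q2.1] at E2s
    have S1 := (hP q1 (memP _ hq1)).1
    have S1s := (hP q1 (memP _ hq1)).2.1
    have S2 := (hP q2 (memP _ hq2)).1
    have S2s := (hP q2 (memP _ hq2)).2.1
    have st1 := strip q1 hq1
    have st2 := strip q2 hq2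
    have A1 := LX q1 hq1 L1
    have A2 := LX q2 hq2 L2
    have B1 := RX q1.swap (swapP' _ hq1) R1s
    have B2 := RX q2.swap (swapP' _ hq2) R2s
    rw [Tswap] at B1 B2
    simp only [Prod.fst_swap] at B1 B2
    -- left-only and right-only boxes are different
    have nb : ∀ i : ι, i = q1.1 ∨ i = q2.1 → i = q1.2 ∨ i = q2.2 → False := by
      intro i h1 h2
      simp only [L, R, Prod.fst_swap, Tswap] at L1 R1 R1s L1s L2 R2 R2s L2s
      rcases h1 with h1 | h1 <;> rcases h2 with h2 | h2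
      · rw [← h2] at R1s; rw [← h1] at R1; exact R1 R1s
      · rw [← h2, ← hT] at R2s; rw [← h1] at R1; exact R1 R2s
      · rw [← h2, hT] at R1s; rw [← h1] at R2; exact R2 R1s
      · rw [← h2] at R2s; rw [← h1] at R2; exact R2 R2s
    rw [← hT] at A2 B2 st2
    have p1 := yord _ S1 _ S2 (s + g * T q1) (h q1.1 q1.2) A1.1 A1.2 (by omega) (by omega)
      A2.1 A2.2 (by omega) (by omega) o1
    have p2 := yord _ S2s _ S1s (s + g * (T q1 + 1)) (h q1.1 q1.2) B2.1 B2.2 (by omega) (by omega)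
      B1.1 B1.2 (by omega) (by omega) o2
    refine cross_lr (s + g * T q1) (s + g * (T q1 + 1)) (xb q1.1 q1.2) (xb q2.1 q2.2)
      (r q1.1 q1.2) (r q1.2 q1.1) (r q2.1 q2.2) (r q2.2 q2.1)
      (fun x y => (x, y, h q1.1 q1.2) ∈ G q1.1 q1.2) (fun x y => (x, y, h q1.1 q1.2) ∈ G q2.1 q2.2)
      (fun x y => x1 q1.1 ≤ x ∧ x ≤ x2 q1.1 ∧ y1 q1.1 ≤ y ∧ y ≤ y2 q1.1 ∧
        z1 q1.1 ≤ h q1.1 q1.2 ∧ h q1.1 q1.2 ≤ z2 q1.1)
      (fun x y => x1 q2.1 ≤ x ∧ x ≤ x2 q2.1 ∧ y1 q2.1 ≤ y ∧ y ≤ y2 q2.1 ∧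
        z1 q2.1 ≤ h q1.1 q1.2 ∧ h q1.1 q1.2 ≤ z2 q2.1)
      (fun x y => x1 q1.2 ≤ x ∧ x ≤ x2 q1.2 ∧ y1 q1.2 ≤ y ∧ y ≤ y2 q1.2 ∧
        z1 q1.2 ≤ h q1.1 q1.2 ∧ h q1.1 q1.2 ≤ z2 q1.2)
      (fun x y => x1 q2.2 ≤ x ∧ x ≤ x2 q2.2 ∧ y1 q2.2 ≤ y ∧ y ≤ y2 q2.2 ∧
        z1 q2.2 ≤ h q1.1 q1.2 ∧ h q1.1 q1.2 ≤ z2 q2.2)
      (by omega) (by omega) (by omega) (by omega) (by omega) (by omega) ?_ ?_ ?_ ?_ ?_ ?_ ?_ ?_ ?_
      ?_ ?_
    · intro y h1
      exact ver q1 (memP _ hq1) y h1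
    · intro y h1
      have := ver q2 (memP _ hq2) y h1
      rwa [← hh] at this
    · intro x h1 h2
      exact conn q1 hq1 _ A1.1 A1.2 x (Or.inl ⟨h1, h2⟩)
    · intro x h1 h2
      have := conn q2 hq2 _ A2.1 A2.2 x (Or.inl ⟨h1, h2⟩)
      rwa [← hh] at this
    · intro x h1 h2
      have := conn q1.swap (swapP' _ hq1) _ B1.1 B1.2 x (Or.inr ⟨by
        simp only [Prod.fst_swap, Prod.snd_swap]; rw [hxs q1.2 q1.1]; exact h1, h2⟩)
      simp only [Prod.fst_swap, Prod.snd_swap] at this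
      rw [hhs q1.2 q1.1, hGs q1.2 q1.1] at this
      exact this
    · intro x h1 h2
      have := conn q2.swap (swapP' _ hq2) _ B2.1 B2.2 x (Or.inr ⟨by
        simp only [Prod.fst_swap, Prod.snd_swap]; rw [hxs q2.2 q2.1]; exact h1, h2⟩)
      simp only [Prod.fst_swap, Prod.snd_swap] at this
      rw [hhs q2.2 q2.1, hGs q2.2 q2.1, ← hh] at this
      exact this
    · intro x y g1 g2
      rcases rdisj q1 (memP _ hq1) q2 (memP _ hq2) x y _ g1 g2 with ⟨u1, u2⟩ | ⟨u1, u2⟩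
      · rw [u1] at o1; exact lt_irrefl _ o1
      · exact nb q1.1 (Or.inl rfl) (Or.inr u1)
    · intro x y g1 g2
      rcases avoid q1 (memP _ hq1) x y _ g1 q2.1 S2 g2 with u1 | u1
      · rw [u1] at o1; exact lt_irrefl _ o1
      · exact nb q2.1 (Or.inr rfl) (Or.inl u1)
    · intro x y g1 g2
      rcases avoid q1 (memP _ hq1) x y _ g1 q2.2 S2s g2 with u1 | u1
      · exact nb q2.2 (Or.inl u1) (Or.inr rfl)
      · rw [u1] at o2; exact lt_irrefl _ o2
    · intro x y g1 g2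
      rcases avoid q2 (memP _ hq2) x y _ g1 q1.1 S1 g2 with u1 | u1
      · rw [u1] at o1; exact lt_irrefl _ o1
      · exact nb q1.1 (Or.inl rfl) (Or.inr u1)
    · intro x y g1 g2
      rcases avoid q2 (memP _ hq2) x y _ g1 q1.2 S1s g2 with u1 | u1
      · exact nb q1.2 (Or.inr u1) (Or.inl rfl)
      · rw [u1] at o2; exact lt_irrefl _ o2
  -- incidences
  let Inc : Finset (Σ _ : ι, ℤ × ℤ) := S.sigma (fun j =>
    Finset.Icc (z1 j) (z2 j) ×ˢ Finset.Icc ((x1 j - s) / g) ((x2 j - s) / g))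
  have incmem : ∀ j ∈ S, ∀ z t : ℤ, z1 j ≤ z → z ≤ z2 j → x1 j ≤ s + g * t →
      s + g * t ≤ x2 j → (⟨j, (z, t)⟩ : Σ _ : ι, ℤ × ℤ) ∈ Inc := by
    intro j hj z t a1 a2 a3 a4
    simp only [Inc, Finset.mem_sigma, Finset.mem_product, Finset.mem_Icc]
    refine ⟨hj, ⟨a1, a2⟩, ?_, ?_⟩
    · have : (x1 j - s) / g ≤ (g * t) / g := Int.ediv_le_ediv hg' (by omega)
      rwa [Int.mul_ediv_cancel_left _ (ne_of_gt hg')] at this
    · have : (g * t) / g ≤ (x2 j - s) / g := Int.ediv_le_ediv hg' (by omega)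
      rwa [Int.mul_ediv_cancel_left _ (ne_of_gt hg')] at this
  have inccard : g * Inc.card ≤ 3 * V := by
    have h1 : (Inc.card : ℤ) = ∑ j ∈ S, ((Finset.Icc (z1 j) (z2 j)).card *
        (Finset.Icc ((x1 j - s) / g) ((x2 j - s) / g)).card : ℤ) := by
      simp only [Inc, Finset.card_sigma, Finset.card_product]
      push_cast
      rfl
    have h2 : (g * Inc.card : ℤ) ≤ 3 * V := by
      rw [h1, Finset.mul_sum]
      calc ∑ j ∈ S, (g : ℤ) * ((Finset.Icc (z1 j) (z2 j)).card *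
            (Finset.Icc ((x1 j - s) / g) ((x2 j - s) / g)).card : ℤ)
          ≤ ∑ j ∈ S, 3 * ((x2 j - x1 j + 1) * (z2 j - z1 j + 1)) := by
            refine Finset.sum_le_sum fun j hj => ?_
            have k1 : ((Finset.Icc ((x1 j - s) / (g : ℤ)) ((x2 j - s) / g)).card : ℤ) * g ≤
                3 * (x2 j - x1 j + 1) := by
              rw [Int.card_Icc]
              have e1 : (x1 j - s) < (g : ℤ) * ((x1 j - s) / g) + g :=
                Int.lt_mul_ediv_self_add hg'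
              have e2 : (g : ℤ) * ((x2 j - s) / g) ≤ x2 j - s :=
                Int.mul_ediv_self_le (ne_of_gt hg')
              have e3 := hx j hj
              have e4 : (x1 j - s) / (g : ℤ) ≤ (x2 j - s) / g :=
                Int.ediv_le_ediv hg' (by omega)
              rw [Int.toNat_of_nonneg (by omega)]
              nlinarith
            have hzj := hz j hj
            have k2 : ((Finset.Icc (z1 j) (z2 j)).card : ℤ) = z2 j - z1 j + 1 := by
              rw [Int.card_Icc, Int.toNat_of_nonneg (by omega)]; ring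
            rw [k2]
            have k3 : 0 ≤ z2 j - z1 j + 1 := by omega
            nlinarith [mul_le_mul_of_nonneg_left k1 k3]
        _ = 3 * ∑ j ∈ S, ((x2 j - x1 j + 1) * (z2 j - z1 j + 1)) := by rw [← Finset.mul_sum]
        _ ≤ 3 * V := by linarith
    exact_mod_cast h2
  -- the three families
  let LL := P'.filter (fun p => L p ∧ L p.swap ∧ y1 p.1 < y1 p.2)
  let RR := P'.filter (fun p => R p ∧ R p.swap ∧ y1 p.1 < y1 p.2)
  let LR := P'.filter (fun p => L p ∧ ¬ R p ∧ R p.swap ∧ ¬ L p.swap)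
  have memLL : ∀ p ∈ LL, p ∈ P' ∧ L p ∧ L p.swap ∧ y1 p.1 < y1 p.2 := fun p hp =>
    Finset.mem_filter.1 hp
  have memRR : ∀ p ∈ RR, p ∈ P' ∧ R p ∧ R p.swap ∧ y1 p.1 < y1 p.2 := fun p hp =>
    Finset.mem_filter.1 hp
  have memLR : ∀ p ∈ LR, p ∈ P' ∧ L p ∧ ¬ R p ∧ R p.swap ∧ ¬ L p.swap := fun p hp =>
    Finset.mem_filter.1 hp
  have cover : P' ⊆ (LL ∪ LL.image Prod.swap) ∪ ((RR ∪ RR.image Prod.swap) ∪
      (LR ∪ LR.image Prod.swap)) := by
    intro p hp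
    have hps := swapP' p hp
    have Ep := hE p (memP _ hp)
    have Es := hE p.swap (memP _ hps)
    simp only [Prod.fst_swap, Prod.snd_swap] at Es
    rw [hhs p.2 p.1] at Es
    have S1 := (hP p (memP _ hp)).1
    have S2 := (hP p (memP _ hp)).2.1
    have imem : ∀ Q : Finset (ι × ι), p.swap ∈ Q → p ∈ Q.image Prod.swap := fun Q hQ =>
      Finset.mem_image.2 ⟨p.swap, hQ, by simp⟩
    simp only [Finset.mem_union]
    by_cases hL1 : L p
    · by_cases hL2 : L p.swap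
      · left
        have A1 := LX p hp hL1
        have A2 := LX _ hps hL2
        rw [Tswap] at A2
        simp only [Prod.fst_swap] at A2
        rcases lt_trichotomy (y1 p.1) (y1 p.2) with o | o | o
        · exact Or.inl (Finset.mem_filter.2 ⟨hp, hL1, hL2, o⟩)
        · exact absurd (yeq _ S1 _ S2 (s + g * T p) (h p.1 p.2) A1.1 A1.2 (by omega) (by omega)
            A2.1 A2.2 (by omega) (by omega) o) (hP p (memP _ hp)).2.2
        · exact Or.inr (imem _ (Finset.mem_filter.2 ⟨hps, hL2, by simpa using hL1, by simpa using o⟩))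
      · have hR2 := LorR _ hps hL2
        by_cases hR1 : R p
        · right; left
          have A1 := RX p hp hR1
          have A2 := RX _ hps hR2
          rw [Tswap] at A2
          simp only [Prod.fst_swap] at A2
          rcases lt_trichotomy (y1 p.1) (y1 p.2) with o | o | o
          · exact Or.inl (Finset.mem_filter.2 ⟨hp, hR1, hR2, o⟩)
          · exact absurd (yeq _ S1 _ S2 (s + g * (T p + 1)) (h p.1 p.2) A1.1 A1.2 (by omega)
              (by omega) A2.1 A2.2 (by omega) (by omega) o) (hP p (memP _ hp)).2.2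
          · exact Or.inr (imem _ (Finset.mem_filter.2
              ⟨hps, hR2, by simpa using hR1, by simpa using o⟩))
        · right; right; left
          exact Finset.mem_filter.2 ⟨hp, hL1, hR1, hR2, hL2⟩
    · have hR1 := LorR _ hp hL1
      by_cases hR2 : R p.swap
      · right; left
        have A1 := RX p hp hR1
        have A2 := RX _ hps hR2
        rw [Tswap] at A2
        simp only [Prod.fst_swap] at A2
        rcases lt_trichotomy (y1 p.1) (y1 p.2) with o | o | o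
        · exact Or.inl (Finset.mem_filter.2 ⟨hp, hR1, hR2, o⟩)
        · exact absurd (yeq _ S1 _ S2 (s + g * (T p + 1)) (h p.1 p.2) A1.1 A1.2 (by omega)
            (by omega) A2.1 A2.2 (by omega) (by omega) o) (hP p (memP _ hp)).2.2
        · exact Or.inr (imem _ (Finset.mem_filter.2
            ⟨hps, hR2, by simpa using hR1, by simpa using o⟩))
      · right; right; right
        have hL2 : L p.swap := by
          by_contra hc
          exact hR2 (LorR _ hps hc)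
        exact imem _ (Finset.mem_filter.2 ⟨hps, hL2, hR2, by simpa using hR1, by simpa using hL1⟩)
  have extr : ∀ (Q A B : Finset (ι × ι)) (fA fB : ι × ι → (Σ _ : ι, ℤ × ℤ)), Q ⊆ A ∪ B →
      (∀ p ∈ A, fA p ∈ Inc) → (∀ p ∈ B, fB p ∈ Inc) →
      (∀ p ∈ A, ∀ q ∈ A, fA p = fA q → p = q) → (∀ p ∈ B, ∀ q ∈ B, fB p = fB q → p = q) →
      Q.card ≤ 2 * Inc.card := by
    intro Q A B fA fB hQ h1 h2 h3 h4
    have k1 : A.card ≤ Inc.card := Finset.card_le_card_of_injOn fA h1 (fun p hp q hq e => h3 p hp q hq e)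
    have k2 : B.card ≤ Inc.card := Finset.card_le_card_of_injOn fB h2 (fun p hp q hq e => h4 p hp q hq e)
    have k3 := Finset.card_le_card hQ
    have k4 := Finset.card_union_le A B
    omega
  have hLL : LL.card ≤ 2 * Inc.card := by
    refine extr LL
      (LL.filter (fun p => ∀ q ∈ LL, q.1 = p.1 → h q.1 q.2 = h p.1 p.2 → T q = T p →
        y1 q.2 ≤ y1 p.2))
      (LL.filter (fun p => ∀ q ∈ LL, q.2 = p.2 → h q.1 q.2 = h p.1 p.2 → T q = T p →
        y1 p.1 ≤ y1 q.1))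
      (fun p => ⟨p.1, (h p.1 p.2, T p)⟩) (fun p => ⟨p.2, (h p.1 p.2, T p)⟩) ?_ ?_ ?_ ?_ ?_
    · intro p hp
      obtain ⟨hp', l1, l2, o⟩ := memLL p hp
      by_contra hcon
      simp only [Finset.mem_union, Finset.mem_filter, hp, true_and, not_or, not_forall,
        not_le] at hcon
      obtain ⟨⟨q1, m1, e1, f1, t1, o1⟩, ⟨q2, m2, e2, f2, t2, o2⟩⟩ := hcon
      obtain ⟨hq1, a1, a2, _⟩ := memLL q1 m1
      obtain ⟨hq2, b1, b2, _⟩ := memLL q2 m2
      have X1 := LX q1 hq1 a1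
      have X1s := LX _ (swapP' _ hq1) a2
      have X2 := LX q2 hq2 b1
      have X2s := LX _ (swapP' _ hq2) b2
      rw [Tswap] at X1s X2s
      simp only [Prod.fst_swap] at X1s X2s
      have st1 := strip q1 hq1
      have st2 := strip q2 hq2
      rw [t1] at X1 X1s st1
      rw [t2] at X2 X2s st2
      exact same_false (s + g * T p) q2 hq2 q1 hq1 (by rw [f1, f2]) X2 X2s X1 X1s
        (Or.inl ⟨by omega, by omega⟩) (by rw [e1]; exact o2) (by rw [e1, e2]; exact o)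
        (by rw [e2]; exact o1)
    · intro p hp
      obtain ⟨hp', l1, l2, o⟩ := memLL p (Finset.mem_filter.1 hp).1
      have Ep := hE p (memP _ hp')
      have A1 := LX p hp' l1
      exact incmem _ (hP p (memP _ hp')).1 _ _ (by omega) (by omega) A1.1 A1.2
    · intro p hp
      obtain ⟨hp', l1, l2, o⟩ := memLL p (Finset.mem_filter.1 hp).1
      have Es := hE p.swap (memP _ (swapP' _ hp'))
      simp only [Prod.fst_swap, Prod.snd_swap] at Es
      rw [hhs p.2 p.1] at Es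
      have A2 := LX _ (swapP' _ hp') l2
      rw [Tswap] at A2
      exact incmem _ (hP p (memP _ hp')).2.1 _ _ (by omega) (by omega) A2.1 A2.2
    · intro p hp q hq he
      obtain ⟨mp, xp⟩ := Finset.mem_filter.1 hp
      obtain ⟨mq, xq⟩ := Finset.mem_filter.1 hq
      simp only [Sigma.mk.injEq, heq_eq_eq, Prod.mk.injEq] at he
      obtain ⟨he1, he2, he3⟩ := he
      have c1 := xp q mq he1.symm he2.symm he3.symm
      have c2 := xq p mp he1 he2 he3
      obtain ⟨hp', l1, l2, o⟩ := memLL p mp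
      obtain ⟨hq', l1', l2', o'⟩ := memLL q mq
      have A2 := LX _ (swapP' _ hp') l2
      have A2' := LX _ (swapP' _ hq') l2'
      have Es := hE p.swap (memP _ (swapP' _ hp'))
      have Es' := hE q.swap (memP _ (swapP' _ hq'))
      simp only [Prod.fst_swap, Prod.snd_swap] at Es Es'
      rw [hhs p.2 p.1] at Es
      rw [hhs q.2 q.1, ← he2] at Es'
      rw [Tswap] at A2 A2'
      simp only [Prod.fst_swap] at A2 A2'
      rw [← he3] at A2'
      refine Prod.ext he1 (yeq _ (hP p (memP _ hp')).2.1 _ (hP q (memP _ hq')).2.1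
        (s + g * T p) (h p.1 p.2) A2.1 A2.2 (by omega) (by omega) A2'.1 A2'.2 (by omega)
        (by omega) (by omega))
    · intro p hp q hq he
      obtain ⟨mp, xp⟩ := Finset.mem_filter.1 hp
      obtain ⟨mq, xq⟩ := Finset.mem_filter.1 hq
      simp only [Sigma.mk.injEq, heq_eq_eq, Prod.mk.injEq] at he
      obtain ⟨he1, he2, he3⟩ := he
      have c1 := xp q mq he1.symm he2.symm he3.symm
      have c2 := xq p mp he1 he2 he3
      obtain ⟨hp', l1, l2, o⟩ := memLL p mp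
      obtain ⟨hq', l1', l2', o'⟩ := memLL q mq
      have A2 := LX _ hp' l1
      have A2' := LX _ hq' l1'
      have Es := hE p (memP _ hp')
      have Es' := hE q (memP _ hq')
      rw [← he2] at Es'
      rw [← he3] at A2'
      refine Prod.ext (yeq _ (hP p (memP _ hp')).1 _ (hP q (memP _ hq')).1
        (s + g * T p) (h p.1 p.2) A2.1 A2.2 (by omega) (by omega) A2'.1 A2'.2 (by omega)
        (by omega) (by omega)) he1
  have hRR : RR.card ≤ 2 * Inc.card := by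
    refine extr RR
      (RR.filter (fun p => ∀ q ∈ RR, q.1 = p.1 → h q.1 q.2 = h p.1 p.2 → T q = T p →
        y1 q.2 ≤ y1 p.2))
      (RR.filter (fun p => ∀ q ∈ RR, q.2 = p.2 → h q.1 q.2 = h p.1 p.2 → T q = T p →
        y1 p.1 ≤ y1 q.1))
      (fun p => ⟨p.1, (h p.1 p.2, T p + 1)⟩) (fun p => ⟨p.2, (h p.1 p.2, T p + 1)⟩) ?_ ?_ ?_ ?_ ?_
    · intro p hp
      obtain ⟨hp', l1, l2, o⟩ := memRR p hp
      by_contra hcon
      simp only [Finset.mem_union, Finset.mem_filter, hp, true_and, not_or, not_forall,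
        not_le] at hcon
      obtain ⟨⟨q1, m1, e1, f1, t1, o1⟩, ⟨q2, m2, e2, f2, t2, o2⟩⟩ := hcon
      obtain ⟨hq1, a1, a2, _⟩ := memRR q1 m1
      obtain ⟨hq2, b1, b2, _⟩ := memRR q2 m2
      have X1 := RX q1 hq1 a1
      have X1s := RX _ (swapP' _ hq1) a2
      have X2 := RX q2 hq2 b1
      have X2s := RX _ (swapP' _ hq2) b2
      rw [Tswap] at X1s X2s
      simp only [Prod.fst_swap] at X1s X2s
      have st1 := strip q1 hq1
      have st2 := strip q2 hq2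
      rw [t1] at X1 X1s st1
      rw [t2] at X2 X2s st2
      exact same_false (s + g * (T p + 1)) q2 hq2 q1 hq1 (by rw [f1, f2]) X2 X2s X1 X1s
        (Or.inr ⟨by omega, by omega⟩) (by rw [e1]; exact o2) (by rw [e1, e2]; exact o)
        (by rw [e2]; exact o1)
    · intro p hp
      obtain ⟨hp', l1, l2, o⟩ := memRR p (Finset.mem_filter.1 hp).1
      have Ep := hE p (memP _ hp')
      have A1 := RX p hp' l1
      exact incmem _ (hP p (memP _ hp')).1 _ _ (by omega) (by omega) A1.1 A1.2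
    · intro p hp
      obtain ⟨hp', l1, l2, o⟩ := memRR p (Finset.mem_filter.1 hp).1
      have Es := hE p.swap (memP _ (swapP' _ hp'))
      simp only [Prod.fst_swap, Prod.snd_swap] at Es
      rw [hhs p.2 p.1] at Es
      have A2 := RX _ (swapP' _ hp') l2
      rw [Tswap] at A2
      exact incmem _ (hP p (memP _ hp')).2.1 _ _ (by omega) (by omega) A2.1 A2.2
    · intro p hp q hq he
      obtain ⟨mp, xp⟩ := Finset.mem_filter.1 hp
      obtain ⟨mq, xq⟩ := Finset.mem_filter.1 hq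
      simp only [Sigma.mk.injEq, heq_eq_eq, Prod.mk.injEq, add_left_inj] at he
      obtain ⟨he1, he2, he3⟩ := he
      have c1 := xp q mq he1.symm he2.symm he3.symm
      have c2 := xq p mp he1 he2 he3
      obtain ⟨hp', l1, l2, o⟩ := memRR p mp
      obtain ⟨hq', l1', l2', o'⟩ := memRR q mq
      have A2 := RX _ (swapP' _ hp') l2
      have A2' := RX _ (swapP' _ hq') l2'
      have Es := hE p.swap (memP _ (swapP' _ hp'))
      have Es' := hE q.swap (memP _ (swapP' _ hq'))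
      simp only [Prod.fst_swap, Prod.snd_swap] at Es Es'
      rw [hhs p.2 p.1] at Es
      rw [hhs q.2 q.1, ← he2] at Es'
      rw [Tswap] at A2 A2'
      simp only [Prod.fst_swap] at A2 A2'
      rw [← he3] at A2'
      refine Prod.ext he1 (yeq _ (hP p (memP _ hp')).2.1 _ (hP q (memP _ hq')).2.1
        (s + g * (T p + 1)) (h p.1 p.2) A2.1 A2.2 (by omega) (by omega) A2'.1 A2'.2 (by omega)
        (by omega) (by omega))
    · intro p hp q hq he
      obtain ⟨mp, xp⟩ := Finset.mem_filter.1 hp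
      obtain ⟨mq, xq⟩ := Finset.mem_filter.1 hq
      simp only [Sigma.mk.injEq, heq_eq_eq, Prod.mk.injEq, add_left_inj] at he
      obtain ⟨he1, he2, he3⟩ := he
      have c1 := xp q mq he1.symm he2.symm he3.symm
      have c2 := xq p mp he1 he2 he3
      obtain ⟨hp', l1, l2, o⟩ := memRR p mp
      obtain ⟨hq', l1', l2', o'⟩ := memRR q mq
      have A2 := RX _ hp' l1
      have A2' := RX _ hq' l1'
      have Es := hE p (memP _ hp')
      have Es' := hE q (memP _ hq')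
      rw [← he2] at Es'
      rw [← he3] at A2'
      refine Prod.ext (yeq _ (hP p (memP _ hp')).1 _ (hP q (memP _ hq')).1
        (s + g * (T p + 1)) (h p.1 p.2) A2.1 A2.2 (by omega) (by omega) A2'.1 A2'.2 (by omega)
        (by omega) (by omega)) he1
  have hLR : LR.card ≤ 2 * Inc.card := by
    refine extr LR
      (LR.filter (fun p => ∀ q ∈ LR, q.1 = p.1 → h q.1 q.2 = h p.1 p.2 → T q = T p →
        y1 q.2 ≤ y1 p.2))
      (LR.filter (fun p => ∀ q ∈ LR, q.2 = p.2 → h q.1 q.2 = h p.1 p.2 → T q = T p →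
        y1 q.1 ≤ y1 p.1))
      (fun p => ⟨p.1, (h p.1 p.2, T p)⟩) (fun p => ⟨p.2, (h p.1 p.2, T p + 1)⟩) ?_ ?_ ?_ ?_ ?_
    · intro p hp
      obtain ⟨hp', l1, l2, l3, l4⟩ := memLR p hp
      by_contra hcon
      simp only [Finset.mem_union, Finset.mem_filter, hp, true_and, not_or, not_forall,
        not_le] at hcon
      obtain ⟨⟨q1, m1, e1, f1, t1, o1⟩, ⟨q2, m2, e2, f2, t2, o2⟩⟩ := hcon
      obtain ⟨hq1, a1, a2, a3, a4⟩ := memLR q1 m1
      obtain ⟨hq2, b1, b2, b3, b4⟩ := memLR q2 m2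
      exact lr_false q1 hq1 q2 hq2 (by rw [f1, f2]) (by rw [t1, t2]) a1 a2 a3 a4 b1 b2 b3 b4
        (by rw [e1]; exact o2) (by rw [e2]; exact o1)
    · intro p hp
      obtain ⟨hp', l1, l2, l3, l4⟩ := memLR p (Finset.mem_filter.1 hp).1
      have Ep := hE p (memP _ hp')
      have A1 := LX p hp' l1
      exact incmem _ (hP p (memP _ hp')).1 _ _ (by omega) (by omega) A1.1 A1.2
    · intro p hp
      obtain ⟨hp', l1, l2, l3, l4⟩ := memLR p (Finset.mem_filter.1 hp).1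
      have Es := hE p.swap (memP _ (swapP' _ hp'))
      simp only [Prod.fst_swap, Prod.snd_swap] at Es
      rw [hhs p.2 p.1] at Es
      have A2 := RX _ (swapP' _ hp') l3
      rw [Tswap] at A2
      exact incmem _ (hP p (memP _ hp')).2.1 _ _ (by omega) (by omega) A2.1 A2.2
    · intro p hp q hq he
      obtain ⟨mp, xp⟩ := Finset.mem_filter.1 hp
      obtain ⟨mq, xq⟩ := Finset.mem_filter.1 hq
      simp only [Sigma.mk.injEq, heq_eq_eq, Prod.mk.injEq] at he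
      obtain ⟨he1, he2, he3⟩ := he
      have c1 := xp q mq he1.symm he2.symm he3.symm
      have c2 := xq p mp he1 he2 he3
      obtain ⟨hp', l1, l2, l3, l4⟩ := memLR p mp
      obtain ⟨hq', l1', l2', l3', l4'⟩ := memLR q mq
      have A2 := RX _ (swapP' _ hp') l3
      have A2' := RX _ (swapP' _ hq') l3'
      have Es := hE p.swap (memP _ (swapP' _ hp'))
      have Es' := hE q.swap (memP _ (swapP' _ hq'))
      simp only [Prod.fst_swap, Prod.snd_swap] at Es Es'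
      rw [hhs p.2 p.1] at Es
      rw [hhs q.2 q.1, ← he2] at Es'
      rw [Tswap] at A2 A2'
      simp only [Prod.fst_swap] at A2 A2'
      rw [← he3] at A2'
      refine Prod.ext he1 (yeq _ (hP p (memP _ hp')).2.1 _ (hP q (memP _ hq')).2.1
        (s + g * (T p + 1)) (h p.1 p.2) A2.1 A2.2 (by omega) (by omega) A2'.1 A2'.2 (by omega)
        (by omega) (by omega))
    · intro p hp q hq he
      obtain ⟨mp, xp⟩ := Finset.mem_filter.1 hp
      obtain ⟨mq, xq⟩ := Finset.mem_filter.1 hq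
      simp only [Sigma.mk.injEq, heq_eq_eq, Prod.mk.injEq, add_left_inj] at he
      obtain ⟨he1, he2, he3⟩ := he
      have c1 := xp q mq he1.symm he2.symm he3.symm
      have c2 := xq p mp he1 he2 he3
      obtain ⟨hp', l1, l2, l3, l4⟩ := memLR p mp
      obtain ⟨hq', l1', l2', l3', l4'⟩ := memLR q mq
      have A2 := LX _ hp' l1
      have A2' := LX _ hq' l1'
      have Es := hE p (memP _ hp')
      have Es' := hE q (memP _ hq')
      rw [← he2] at Es'
      rw [← he3] at A2'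
      refine Prod.ext (yeq _ (hP p (memP _ hp')).1 _ (hP q (memP _ hq')).1
        (s + g * T p) (h p.1 p.2) A2.1 A2.2 (by omega) (by omega) A2'.1 A2'.2 (by omega)
        (by omega) (by omega)) he1
  have ccov := Finset.card_le_card cover
  have u1 := Finset.card_union_le (LL ∪ LL.image Prod.swap) ((RR ∪ RR.image Prod.swap) ∪
      (LR ∪ LR.image Prod.swap))
  have u2 := Finset.card_union_le (RR ∪ RR.image Prod.swap) (LR ∪ LR.image Prod.swap)
  have u3 := Finset.card_union_le LL (LL.image Prod.swap)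
  have u4 := Finset.card_union_le RR (RR.image Prod.swap)
  have u5 := Finset.card_union_le LR (LR.image Prod.swap)
  have v3 : (LL.image Prod.swap).card ≤ LL.card := Finset.card_image_le
  have v4 : (RR.image Prod.swap).card ≤ RR.card := Finset.card_image_le
  have v5 : (LR.image Prod.swap).card ≤ LR.card := Finset.card_image_le
  have fin : P'.card ≤ 12 * Inc.card := by omega
  have h6 : g * P'.card ≤ 36 * V := by
    calc g * P'.card ≤ g * (12 * Inc.card) := Nat.mul_le_mul_left _ fin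
      _ = 12 * (g * Inc.card) := by ring
      _ ≤ 12 * (3 * V) := Nat.mul_le_mul_left _ inccard
      _ = 36 * V := by ring
  calc g * P.card = g * C.card + g * P'.card := by rw [← hsum]; ring
    _ ≤ 2 * V + 36 * V := Nat.add_le_add hs h6
    _ = 38 * V := by ring

end Pool.Agent.H119.OneBend
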