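import Pool.Agent.H119.OneBend.Bounds

/-!
# The cubic lower bound for a core
-/

namespace Pool.Agent.H119.OneBend

open Finset Classical

variable {n : ℕ}

/-- Short pairs of type `d` in `S`. -/
noncomputable def Core.Sh (K : Core n) (w : ℕ) (d : Fin 3) (S : Finset (Fin n)) :
    Finset (Fin n × Fin n) :=
  S.offDiag.filter (fun p => K.Flat d p.1 p.2 ∧ (K.G p.1 p.2).card ≤ w)

theorem Core.Sh_mono (K : Core n) (w : ℕ) (d : Fin 3) {S S' : Finset (Fin n)} (h : S' ⊆ S) :
    K.Sh w d S' ⊆ K.Sh w d S :=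
  Finset.filter_subset_filter _ (Finset.offDiag_mono h)

/-- Pairs of `S` whose `d`-intervals meet. -/
noncomputable def Core.Inter (K : Core n) (d : Fin 3) (S : Finset (Fin n)) :
    Finset (Fin n × Fin n) :=
  S.offDiag.filter (fun p => K.lo p.1 d ≤ K.hi p.2 d ∧ K.lo p.2 d ≤ K.hi p.1 d)

theorem exists_frame (d : Fin 3) : ∃ dx dy : Fin 3, dx ≠ dy ∧ dx ≠ d ∧ dy ≠ d := by
  revert d; decide

theorem exists_third {d d' : Fin 3} (h : d' ≠ d) : ∃ d'' : Fin 3, d' ≠ d'' ∧ d'' ≠ d := by
  revert d d'; decide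

theorem Core.flat_inter (K : Core n) {d : Fin 3} {i k : Fin n} (h : K.Flat d i k) :
    K.lo i d ≤ K.hi k d ∧ K.lo k d ≤ K.hi i d := by
  obtain ⟨dx, dy, n1, n2, n3⟩ := exists_frame d
  obtain ⟨h, xb, ei, ri, ek, rk, L⟩ := h dx dy n1 n2 n3
  have := L.h1
  have := L.h2
  omega

theorem Core.card_inter (K : Core n) (d : Fin 3) (S : Finset (Fin n))
    (h : ∀ i ∈ S, 8 * (S.filter (fun j => K.lo j d ≤ K.lo i d ∧ K.lo i d ≤ K.hi j d)).card
      < S.card) : 4 * (K.Inter d S).card ≤ S.card * S.card := by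
  let A := (S ×ˢ S).filter (fun p => K.lo p.2 d ≤ K.lo p.1 d ∧ K.lo p.1 d ≤ K.hi p.2 d)
  have hA : 8 * A.card ≤ S.card * S.card := by
    have e : A.card = ∑ i ∈ S, (S.filter (fun j => K.lo j d ≤ K.lo i d ∧
        K.lo i d ≤ K.hi j d)).card := by
      simp only [A, Finset.card_filter, Finset.sum_product]
    rw [e, Finset.mul_sum]
    calc ∑ i ∈ S, 8 * (S.filter (fun j => K.lo j d ≤ K.lo i d ∧ K.lo i d ≤ K.hi j d)).card
        ≤ ∑ i ∈ S, S.card := Finset.sum_le_sum fun i hi => (h i hi).le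
      _ = S.card * S.card := by simp
  have hsub : K.Inter d S ⊆ A ∪ A.image Prod.swap := by
    intro p hp
    obtain ⟨h1, h2⟩ := Finset.mem_filter.1 hp
    obtain ⟨h3, h4, _⟩ := Finset.mem_offDiag.1 h1
    rcases le_total (K.lo p.2 d) (K.lo p.1 d) with q | q
    · exact Finset.mem_union_left _ (Finset.mem_filter.2 ⟨Finset.mem_product.2 ⟨h3, h4⟩, q, h2.1⟩)
    · refine Finset.mem_union_right _ (Finset.mem_image.2 ⟨p.swap, Finset.mem_filter.2
        ⟨Finset.mem_product.2 ⟨h4, h3⟩, q, h2.2⟩, by simp⟩)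
  have c1 := Finset.card_le_card hsub
  have c2 := Finset.card_union_le A (A.image Prod.swap)
  have c3 : (A.image Prod.swap).card ≤ A.card := Finset.card_image_le
  omega

theorem Core.long_pairs (K : Core n) (w : ℕ) :
    (w + 1) * ((Finset.univ : Finset (Fin n)).offDiag.filter
      (fun p => w < (K.G p.1 p.2).card)).card ≤ 2 * K.U.card := by
  refine le_trans ?_ K.sum_route
  have h1 : ∑ p ∈ (Finset.univ : Finset (Fin n)).offDiag.filter
      (fun p => w < (K.G p.1 p.2).card), (w + 1) ≤ ∑ p ∈ (Finset.univ : Finset (Fin n)).offDiag.filter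
      (fun p => w < (K.G p.1 p.2).card), (K.G p.1 p.2).card :=
    Finset.sum_le_sum fun p hp => (Finset.mem_filter.1 hp).2
  rw [Finset.sum_const, smul_eq_mul, mul_comm] at h1
  exact h1.trans (Finset.sum_le_sum_of_subset (Finset.filter_subset _ _))

/-- The main induction. -/
theorem Core.main_ind (K : Core n) (w : ℕ) (B M : ℝ) (hM1 : 1 ≤ M) (hM : 4 * B < M * (M - 1))
    (hB : 24 * (n * (3 * w + 1) : ℝ) ≤ B)
    (hlong : (((Finset.univ : Finset (Fin n)).offDiag.filter
      (fun p => w < (K.G p.1 p.2).card)).card : ℝ) ≤ B) (k : ℕ) :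
    ∀ (D : Finset (Fin 3)) (S : Finset (Fin n)), Dᶜ.card = k →
      (∀ d ∈ D, ((K.Sh w d S).card : ℝ) ≤ B) →
      (∀ d ∉ D, ∀ d', d' ≠ d → ∀ i ∈ S, K.hi i d' ≤ K.lo i d' + w) →
      (S.card : ℝ) < 8 ^ k * M := by
  induction k with
  | zero =>
    intro D S hD h1 _
    rw [Finset.card_eq_zero, Finset.compl_eq_empty_iff] at hD
    subst hD
    by_contra hcon
    rw [pow_zero, one_mul, not_lt] at hcon
    have hcov : S.offDiag ⊆ ((Finset.univ : Finset (Fin n)).offDiag.filter
        (fun p => w < (K.G p.1 p.2).card)) ∪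
        (Finset.univ : Finset (Fin 3)).biUnion (fun d => K.Sh w d S) := by
      intro p hp
      have hp' := Finset.mem_offDiag.1 hp
      by_cases hl : w < (K.G p.1 p.2).card
      · exact Finset.mem_union_left _ (Finset.mem_filter.2 ⟨Finset.mem_offDiag.2
          ⟨Finset.mem_univ _, Finset.mem_univ _, hp'.2.2⟩, hl⟩)
      · obtain ⟨d, hd⟩ := K.exists_flat p.1 p.2 hp'.2.2
        exact Finset.mem_union_right _ (Finset.mem_biUnion.2 ⟨d, Finset.mem_univ _,
          Finset.mem_filter.2 ⟨hp, hd, not_lt.1 hl⟩⟩)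
    have c1 := Finset.card_le_card hcov
    have c2 := Finset.card_union_le ((Finset.univ : Finset (Fin n)).offDiag.filter
        (fun p => w < (K.G p.1 p.2).card))
        ((Finset.univ : Finset (Fin 3)).biUnion (fun d => K.Sh w d S))
    have c3 : ((Finset.univ : Finset (Fin 3)).biUnion (fun d => K.Sh w d S)).card ≤
        ∑ d ∈ (Finset.univ : Finset (Fin 3)), (K.Sh w d S).card := Finset.card_biUnion_le
    have c4 : ((∑ d ∈ (Finset.univ : Finset (Fin 3)), (K.Sh w d S).card : ℕ) : ℝ) ≤ 3 * B := by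
      push_cast
      calc ∑ d ∈ (Finset.univ : Finset (Fin 3)), ((K.Sh w d S).card : ℝ)
          ≤ ∑ d ∈ (Finset.univ : Finset (Fin 3)), B := Finset.sum_le_sum fun d hd => h1 d hd
        _ = 3 * B := by simp
    have c5 : ((S.offDiag.card : ℕ) : ℝ) ≤ 4 * B := by
      have : ((S.offDiag.card : ℕ) : ℝ) ≤ (((Finset.univ : Finset (Fin n)).offDiag.filter
        (fun p => w < (K.G p.1 p.2).card)).card : ℝ) +
        ((∑ d ∈ (Finset.univ : Finset (Fin 3)), (K.Sh w d S).card : ℕ) : ℝ) := by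
        exact_mod_cast (c1.trans c2).trans (Nat.add_le_add_left c3 _)
      linarith
    rw [Finset.offDiag_card, Nat.cast_sub (Nat.le_mul_self _)] at c5
    push_cast at c5
    nlinarith
  | succ k ih =>
    intro D S hD h1 h2
    by_contra hcon
    rw [not_lt] at hcon
    have h8 : (1 : ℝ) ≤ 8 ^ k := one_le_pow₀ (by norm_num)
    have hSM : 8 * M ≤ S.card := by
      have : (8 : ℝ) ^ (k + 1) * M = 8 ^ k * (8 * M) := by ring
      rw [this] at hcon
      nlinarith
    -- some unused direction has a large clique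
    have hex : ∃ d ∉ D, ∃ i ∈ S, S.card ≤ 8 * (S.filter (fun j => K.lo j d ≤ K.lo i d ∧
        K.lo i d ≤ K.hi j d)).card := by
      by_contra hno
      push Not at hno
      have hcov : S.offDiag ⊆ ((Finset.univ : Finset (Fin n)).offDiag.filter
          (fun p => w < (K.G p.1 p.2).card)) ∪
          (D.biUnion (fun d => K.Sh w d S) ∪ Dᶜ.biUnion (fun d => K.Inter d S)) := by
        intro p hp
        have hp' := Finset.mem_offDiag.1 hp
        by_cases hl : w < (K.G p.1 p.2).card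
        · exact Finset.mem_union_left _ (Finset.mem_filter.2 ⟨Finset.mem_offDiag.2
            ⟨Finset.mem_univ _, Finset.mem_univ _, hp'.2.2⟩, hl⟩)
        · obtain ⟨d, hd⟩ := K.exists_flat p.1 p.2 hp'.2.2
          refine Finset.mem_union_right _ ?_
          by_cases hdD : d ∈ D
          · exact Finset.mem_union_left _ (Finset.mem_biUnion.2 ⟨d, hdD,
              Finset.mem_filter.2 ⟨hp, hd, not_lt.1 hl⟩⟩)
          · exact Finset.mem_union_right _ (Finset.mem_biUnion.2 ⟨d, Finset.mem_compl.2 hdD,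
              Finset.mem_filter.2 ⟨hp, K.flat_inter hd⟩⟩)
      have c1 := Finset.card_le_card hcov
      have c2 := Finset.card_union_le ((Finset.univ : Finset (Fin n)).offDiag.filter
          (fun p => w < (K.G p.1 p.2).card))
          (D.biUnion (fun d => K.Sh w d S) ∪ Dᶜ.biUnion (fun d => K.Inter d S))
      have c3 := Finset.card_union_le (D.biUnion (fun d => K.Sh w d S))
        (Dᶜ.biUnion (fun d => K.Inter d S))
      have c4 : (D.biUnion (fun d => K.Sh w d S)).card ≤ ∑ d ∈ D, (K.Sh w d S).card :=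
        Finset.card_biUnion_le
      have c5 : (Dᶜ.biUnion (fun d => K.Inter d S)).card ≤ ∑ d ∈ Dᶜ, (K.Inter d S).card :=
        Finset.card_biUnion_le
      have hD3 : D.card ≤ 3 := by
        have := Finset.card_le_univ D; simpa using this
      have hDc3 : Dᶜ.card ≤ 3 := by
        have := Finset.card_le_univ Dᶜ; simpa using this
      have hB0 : 0 ≤ B := le_trans (by positivity) hlong
      have c6 : ((∑ d ∈ D, (K.Sh w d S).card : ℕ) : ℝ) ≤ 3 * B := by
        push_cast
        calc ∑ d ∈ D, ((K.Sh w d S).card : ℝ) ≤ ∑ d ∈ D, B :=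
              Finset.sum_le_sum fun d hd => h1 d hd
          _ = D.card * B := by simp
          _ ≤ 3 * B := by
            have : (D.card : ℝ) ≤ 3 := by exact_mod_cast hD3
            nlinarith
      have c7 : ((4 * ∑ d ∈ Dᶜ, (K.Inter d S).card : ℕ) : ℝ) ≤ 3 * (S.card * S.card : ℝ) := by
        have : 4 * ∑ d ∈ Dᶜ, (K.Inter d S).card ≤ 3 * (S.card * S.card) := by
          rw [Finset.mul_sum]
          calc ∑ d ∈ Dᶜ, 4 * (K.Inter d S).card ≤ ∑ d ∈ Dᶜ, S.card * S.card :=
                Finset.sum_le_sum fun d hd => K.card_inter d S (hno d (Finset.mem_compl.1 hd))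
            _ = Dᶜ.card * (S.card * S.card) := by simp
            _ ≤ 3 * (S.card * S.card) := Nat.mul_le_mul_right _ hDc3
        exact_mod_cast this
      have c8 : ((S.offDiag.card : ℕ) : ℝ) ≤ 4 * B + 3 / 4 * (S.card * S.card : ℝ) := by
        have : ((S.offDiag.card : ℕ) : ℝ) ≤ (((Finset.univ : Finset (Fin n)).offDiag.filter
          (fun p => w < (K.G p.1 p.2).card)).card : ℝ) +
          (((∑ d ∈ D, (K.Sh w d S).card : ℕ) : ℝ) + ((∑ d ∈ Dᶜ, (K.Inter d S).card : ℕ) : ℝ)) := by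
          exact_mod_cast (c1.trans c2).trans (Nat.add_le_add_left (c3.trans (Nat.add_le_add c4 c5)) _)
        push_cast at this c6 c7 ⊢
        linarith
      rw [Finset.offDiag_card, Nat.cast_sub (Nat.le_mul_self _)] at c8
      push_cast at c8
      -- 4B < M(M-1) ≤ s(s-1)/64
      nlinarith
    obtain ⟨d, hdD, i, hiS, hcl⟩ := hex
    set S' := S.filter (fun j => K.lo j d ≤ K.lo i d ∧ K.lo i d ≤ K.hi j d) with hS'
    have hS'S : S' ⊆ S := Finset.filter_subset _ _
    have hcard : (8 : ℝ) ^ k * M ≤ S'.card := by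
      have : ((S.card : ℕ) : ℝ) ≤ 8 * (S'.card : ℝ) := by exact_mod_cast hcl
      have e : (8 : ℝ) ^ (k + 1) * M = 8 * (8 ^ k * M) := by ring
      rw [e] at hcon
      linarith
    have := ih (insert d D) S' ?_ ?_ ?_
    · linarith
    · rw [Finset.compl_insert, Finset.card_erase_of_mem (Finset.mem_compl.2 hdD), hD]
      rfl
    · intro d' hd'
      rcases Finset.mem_insert.1 hd' with rfl | hd'
      · obtain ⟨dx, dy, n1, n2, n3⟩ := exists_frame d'
        have hb := K.clique_bound n1 n2 n3 S' w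
          (fun j hj => ⟨h2 d' hdD dx n2 j (hS'S hj), h2 d' hdD dy n3 j (hS'S hj)⟩)
          (K.lo i d') (fun j hj => (Finset.mem_filter.1 hj).2)
        have hb' : ((K.Sh w d' S').card : ℝ) ≤ 24 * (S'.card * (3 * w + 1) : ℝ) := by
          have : ((K.Sh w d' S').card : ℝ) ≤ ((24 * (S'.card * (3 * w + 1)) : ℕ) : ℝ) := by
            exact_mod_cast hb
          push_cast at this
          exact this
        have hle : (S'.card : ℝ) ≤ n := by
          have : S'.card ≤ n := by simpa using Finset.card_le_univ S'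
          exact_mod_cast this
        refine hb'.trans (le_trans ?_ hB)
        have : (0 : ℝ) ≤ 3 * w + 1 := by positivity
        nlinarith
      · refine le_trans ?_ (h1 d' hd')
        exact_mod_cast Finset.card_le_card (K.Sh_mono w d' hS'S)
    · intro d' hd' d'' hd'' j hj
      exact h2 d' (fun h => hd' (Finset.mem_insert_of_mem h)) d'' hd'' j (hS'S hj)

/-- Boxes that are long in two directions. -/
theorem Core.two_long (K : Core n) (w : ℕ) :
    (w + 1) * (w + 1) * ((Finset.univ : Finset (Fin n)).filter (fun i => ∃ d d' : Fin 3,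
      d ≠ d' ∧ K.lo i d + w < K.hi i d ∧ K.lo i d' + w < K.hi i d')).card ≤ K.U.card := by
  set T := ((Finset.univ : Finset (Fin n)).filter (fun i => ∃ d d' : Fin 3,
      d ≠ d' ∧ K.lo i d + w < K.hi i d ∧ K.lo i d' + w < K.hi i d')) with hT
  refine le_trans ?_ (K.sum_box T)
  calc (w + 1) * (w + 1) * T.card = ∑ i ∈ T, (w + 1) * (w + 1) := by simp [mul_comm]
    _ ≤ _ := Finset.sum_le_sum fun i hi => ?_
  obtain ⟨d, d', hdd, h1, h2⟩ := (Finset.mem_filter.1 hi).2
  obtain ⟨d'', n2, n3⟩ := exists_third hdd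
  have hc := K.card_box i hdd n2 n3.symm
  have h3 := K.box_le i d''
  have : (((w + 1) * (w + 1) : ℕ) : ℤ) ≤ ((Finset.Icc (K.lo i) (K.hi i)).card : ℤ) := by
    rw [hc]
    push_cast
    have a1 : (w : ℤ) + 1 ≤ K.hi i d - K.lo i d + 1 := by omega
    have a2 : (w : ℤ) + 1 ≤ K.hi i d' - K.lo i d' + 1 := by omega
    have a3 : (1 : ℤ) ≤ K.hi i d'' - K.lo i d'' + 1 := by omega
    calc ((w : ℤ) + 1) * (w + 1) ≤ (K.hi i d - K.lo i d + 1) * (K.hi i d' - K.lo i d' + 1) :=
          mul_le_mul a1 a2 (by positivity) (by omega)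
      _ = (K.hi i d - K.lo i d + 1) * (K.hi i d' - K.lo i d' + 1) * 1 := by ring
      _ ≤ _ := mul_le_mul_of_nonneg_left a3 (mul_nonneg (by omega) (by omega))
  exact_mod_cast this

/-- The cubic lower bound. -/
theorem Core.lower (K : Core n) (hn : 10 ^ 10 ≤ n) :
    (n : ℝ) ^ 3 / 10 ^ 19 ≤ K.U.card := by
  by_contra hcon
  rw [not_le] at hcon
  have hn' : (10 : ℝ) ^ 10 ≤ n := by exact_mod_cast hn
  have hnpos : (0 : ℝ) < n := lt_of_lt_of_le (by norm_num) hn'
  set w : ℕ := n / 10 ^ 9 with hw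
  have hw1 : (w : ℝ) ≤ n / 10 ^ 9 := by
    have h := Nat.div_mul_le_self n (10 ^ 9)
    have h2 : (w : ℝ) * 10 ^ 9 ≤ n := by exact_mod_cast h
    rw [le_div_iff₀ (by norm_num)]
    exact h2
  have hw2 : (n : ℝ) / 10 ^ 9 ≤ w + 1 := by
    have : n < 10 ^ 9 * (w + 1) := by
      rw [hw]; exact Nat.lt_mul_div_succ n (by norm_num)
    have h2 : (n : ℝ) < 10 ^ 9 * (w + 1) := by exact_mod_cast this
    rw [div_le_iff₀ (by norm_num)]
    linarith
  set B : ℝ := n ^ 2 / (5 * 10 ^ 6) with hBdef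
  set M : ℝ := n / 1072 with hMdef
  have hM1 : 1 ≤ M := by rw [hMdef, le_div_iff₀ (by norm_num)]; linarith
  have hM : 4 * B < M * (M - 1) := by
    rw [hBdef, hMdef]
    have : (0 : ℝ) < n * (n / 1072 / 1072 - 1 / 1072 - 4 * n / (5 * 10 ^ 6)) := by
      apply mul_pos hnpos
      linarith
    nlinarith
  have hBb : 24 * (n * (3 * w + 1) : ℝ) ≤ B := by
    rw [hBdef]
    have h1 : (n : ℝ) * (3 * w + 1) ≤ n * (3 * (n / 10 ^ 9) + 1) := by
      apply mul_le_mul_of_nonneg_left _ hnpos.le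
      linarith
    have h2 : 24 * ((n : ℝ) * (3 * (n / 10 ^ 9) + 1)) ≤ n ^ 2 / (5 * 10 ^ 6) := by
      have : (0 : ℝ) ≤ n * (n / (5 * 10 ^ 6) - 24 * (3 * (n / 10 ^ 9) + 1)) := by
        apply mul_nonneg hnpos.le
        linarith
      nlinarith
    linarith
  have hV38 : (38 : ℝ) * K.U.card ≤ (w + 1) * B := by
    have h1 : (n : ℝ) / 10 ^ 9 * B ≤ (w + 1) * B :=
      mul_le_mul_of_nonneg_right hw2 (by rw [hBdef]; positivity)
    have h2 : (38 : ℝ) * K.U.card ≤ n / 10 ^ 9 * B := by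
      rw [hBdef]
      have e : (n : ℝ) / 10 ^ 9 * (n ^ 2 / (5 * 10 ^ 6)) = n ^ 3 / (5 * 10 ^ 15) := by ring
      rw [e]
      have : (38 : ℝ) * K.U.card ≤ 38 * (n ^ 3 / 10 ^ 19) := by linarith
      refine this.trans ?_
      have h3 : (0 : ℝ) ≤ (n : ℝ) ^ 3 := by positivity
      linarith
    linarith
  have hlong : (((Finset.univ : Finset (Fin n)).offDiag.filter
      (fun p => w < (K.G p.1 p.2).card)).card : ℝ) ≤ B := by
    have h1 := K.long_pairs w
    have h2 : ((w : ℝ) + 1) * (((Finset.univ : Finset (Fin n)).offDiag.filter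
      (fun p => w < (K.G p.1 p.2).card)).card : ℝ) ≤ 2 * K.U.card := by exact_mod_cast h1
    have h3 : (0 : ℝ) < (w : ℝ) + 1 := by positivity
    have h4 : (0 : ℝ) ≤ K.U.card := by positivity
    refine le_of_mul_le_mul_left ?_ h3
    linarith
  have ind := K.main_ind w B M hM1 hM hBb hlong
  -- the classes
  set T := ((Finset.univ : Finset (Fin n)).filter (fun i => ∃ d d' : Fin 3,
      d ≠ d' ∧ K.lo i d + w < K.hi i d ∧ K.lo i d' + w < K.hi i d')) with hT
  let S0 := (Finset.univ : Finset (Fin n)).filter (fun i => ∀ d, K.hi i d ≤ K.lo i d + w)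
  let SL := fun d : Fin 3 => (Finset.univ : Finset (Fin n)).filter (fun i =>
    K.lo i d + w < K.hi i d ∧ ∀ d', d' ≠ d → K.hi i d' ≤ K.lo i d' + w)
  have hS0 : (S0.card : ℝ) < 8 ^ 3 * M := by
    refine ind 3 ∅ S0 (by simp) (by simp) ?_
    intro d _ d' _ i hi
    exact (Finset.mem_filter.1 hi).2 d'
  have hSL : ∀ d, ((SL d).card : ℝ) < 8 ^ 1 * M := by
    intro d
    refine ind 1 {d}ᶜ (SL d) (by simp) ?_ ?_
    · intro d' hd'
      have hd'' : d ≠ d' := by
        intro h; rw [h] at hd'; simp at hd'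
      obtain ⟨e, n1, n2⟩ := exists_third hd''
      have hb := K.long_bound n1 hd'' n2 (SL d) (w + 1) (by omega) (fun i hi => by
        have := (Finset.mem_filter.1 hi).2.1
        push_cast
        omega)
      have hb' : ((w : ℝ) + 1) * (((SL d).offDiag.filter (fun p => K.Flat d' p.1 p.2)).card : ℝ) ≤
          38 * K.U.card := by exact_mod_cast hb
      have hb2 : (((SL d).offDiag.filter (fun p => K.Flat d' p.1 p.2)).card : ℝ) ≤ B := by
        have h3 : (0 : ℝ) < (w : ℝ) + 1 := by positivity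
        exact le_of_mul_le_mul_left (hb'.trans hV38) h3
      refine le_trans ?_ hb2
      have hss : K.Sh w d' (SL d) ⊆ (SL d).offDiag.filter (fun p => K.Flat d' p.1 p.2) := by
        intro p hp
        obtain ⟨q1, q2⟩ := Finset.mem_filter.1 hp
        exact Finset.mem_filter.2 ⟨q1, q2.1⟩
      exact_mod_cast Finset.card_le_card hss
    · intro d' hd' d'' hd'' i hi
      have : d' = d := by simpa using hd'
      rw [this] at hd''
      exact (Finset.mem_filter.1 hi).2.2 d'' hd''
  have hcov : (Finset.univ : Finset (Fin n)) ⊆ T ∪ (S0 ∪ (Finset.univ : Finset (Fin 3)).biUnion SL) := by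
    intro i _
    by_cases hT' : ∃ d d' : Fin 3, d ≠ d' ∧ K.lo i d + w < K.hi i d ∧ K.lo i d' + w < K.hi i d'
    · exact Finset.mem_union_left _ (Finset.mem_filter.2 ⟨Finset.mem_univ _, hT'⟩)
    · refine Finset.mem_union_right _ ?_
      by_cases h0 : ∀ d, K.hi i d ≤ K.lo i d + w
      · exact Finset.mem_union_left _ (Finset.mem_filter.2 ⟨Finset.mem_univ _, h0⟩)
      · push Not at h0
        obtain ⟨d, hd⟩ := h0
        refine Finset.mem_union_right _ (Finset.mem_biUnion.2 ⟨d, Finset.mem_univ _,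
          Finset.mem_filter.2 ⟨Finset.mem_univ _, hd, ?_⟩⟩)
        intro d' hd'
        by_contra hc
        exact hT' ⟨d, d', hd'.symm, hd, not_le.1 hc⟩
  have c1 := Finset.card_le_card hcov
  have c2 := Finset.card_union_le T (S0 ∪ (Finset.univ : Finset (Fin 3)).biUnion SL)
  have c3 := Finset.card_union_le S0 ((Finset.univ : Finset (Fin 3)).biUnion SL)
  have c4 : ((Finset.univ : Finset (Fin 3)).biUnion SL).card ≤
      ∑ d ∈ (Finset.univ : Finset (Fin 3)), (SL d).card := Finset.card_biUnion_le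
  rw [Fin.sum_univ_three] at c4
  rw [Finset.card_univ, Fintype.card_fin] at c1
  have c5 : (n : ℝ) ≤ T.card + (S0.card + ((SL 0).card + (SL 1).card + (SL 2).card)) := by
    exact_mod_cast (c1.trans c2).trans (Nat.add_le_add_left (c3.trans (Nat.add_le_add_left c4 _)) _)
  have hTc : (T.card : ℝ) < n / 2 := by
    have h1 := K.two_long w
    have h2 : ((w : ℝ) + 1) * (w + 1) * (T.card : ℝ) ≤ K.U.card := by exact_mod_cast h1
    have h3 : (n : ℝ) / 10 ^ 9 * (n / 10 ^ 9) ≤ (w + 1) * (w + 1) :=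
      mul_le_mul hw2 hw2 (by positivity) (by positivity)
    have h4 : (n : ℝ) / 10 ^ 9 * (n / 10 ^ 9) * (T.card : ℝ) ≤ K.U.card :=
      (mul_le_mul_of_nonneg_right h3 (by positivity)).trans h2
    by_contra hc
    rw [not_lt] at hc
    have h5 : (n : ℝ) / 10 ^ 9 * (n / 10 ^ 9) * (n / 2) ≤ K.U.card :=
      (mul_le_mul_of_nonneg_left hc (by positivity)).trans h4
    have h6 : (n : ℝ) / 10 ^ 9 * (n / 10 ^ 9) * (n / 2) = n ^ 3 / (2 * 10 ^ 18) := by ring
    rw [h6] at h5
    have h7 : (0 : ℝ) < (n : ℝ) ^ 3 := by positivity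
    linarith
  have e0 := hSL 0
  have e1 := hSL 1
  have e2 := hSL 2
  have : M = n / 1072 := hMdef
  linarith

end Pool.Agent.H119.OneBend
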